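import Pool.Agent.W719.AR.Geo

/-!
# Closed 3-braids with many full twists: angle structures and statements

The braid `∏ s_1^{a_i} s_2^{b_i}` times `m` full twists.  The twist regions form a ring with the
weights `a_1, b_1, a_2, b_2, …`; the crossing circles and the braid axis are filled.

Every edge `j` of the ring (between the crossing circles `j` and `j + 1`) gives two ideal
octahedra, front and back, with the vertices `C_j`, `C_{j+1}` (opposite), `q` and the axis `A`
(opposite), `p` and `r` (opposite), where the circle `C_j` encloses the strands `p, q` and `C_{j+1}`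
encloses the strands `q, r`.  `f j`, `g j` are the angles of one of the octahedra (seen from `C_j`,
`C_{j+1}`), `F j`, `G j` those of the other one.
-/

set_option autoImplicit false

namespace Pool.Agent.Y482.Chi

open Finset Filter Topology
open Pool.Agent.W711.HT
open Pool.Agent.W719.AR (Fl)
open Pool.Agent.W709.VC (Dv)
open scoped Real

/-- `log (sin ((u + χ) / 2) / sin ((u - χ) / 2))` -/
noncomputable def Lc (u χ : ℂ) : ℂ :=
  Complex.log (Complex.sin ((u + χ) / 2) / Complex.sin ((u - χ) / 2))

/-- the conditions at an edge -/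
structure HX (ψ ψ' χ u : ℂ) : Prop where
  ne : ψ ≠ 0
  ne' : ψ' ≠ 0
  sm : ‖ψ‖ ≤ 1 / 10
  sm' : ‖ψ'‖ ≤ 1 / 10
  smc : ‖χ‖ < 1 / 10
  un : ‖u - π / 2‖ ≤ π / 8
  eq : Complex.cos u * (1 + Complex.cos χ + Complex.cos ψ + Complex.cos ψ') =
    Complex.cos χ - Complex.cos ψ * Complex.cos ψ'

/-- the conditions at the crossing circle `C` with `w` half twists between the edges with the
angles `f g F G` (below) and `f' g' F' G'` (above) -/
structure VX (w : ℤ) (f g F G f' g' F' G' : Fl) : Prop where
  /-- the edge between the two strands enclosed by `C` -/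
  strand : f.a + g.c + F.b' + G.c + (f'.c + g'.a + F'.c + G'.b') = 2 * π
  /-- the edge between the third strand and the axis -/
  axis : f.b' + g.a' + F.a + G.a' + (f'.a' + g'.b' + F'.a' + G'.a) = 2 * π
  /-- the edge from `C` to the axis -/
  ca : g.c' + G.c + G.b' + (f'.c' + F'.c + F'.b') = 2 * π
  /-- the edge from `C` to the third strand -/
  cr : g.c + g.b' + G.c' + (f'.c + f'.b' + F'.c') = 2 * π
  /-- the edges from `C` to the strands enclosed by `C` -/
  even : Even w → g.a + g.a' + G.b + (f'.a + f'.a' + F'.b) = 2 * π ∧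
    g.b + G.a + G.a' + (f'.b + F'.a + F'.a') = 2 * π
  odd : Odd w → g.b + G.a + G.a' + (f'.a + f'.a' + F'.b) = 2 * π ∧
    g.a + g.a' + G.b + (f'.b + F'.a + F'.a') = 2 * π
  /-- the rotation along two parallel copies of the filling slope of `C` is `4 π` -/
  fill : f'.cr + F'.cr - (g.cr + G.cr) = 4 * π + w * (f'.tw + F'.tw)

/-- rotation along the part inside the edge of two parallel copies of the meridian of the axis
(without the multiples of the longitude) -/
noncomputable def rho (f g F G : Fl) : ℝ :=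
  f.c' + f.b' + g.a' - π + (F.a' + G.a + G.c + G.b' - π)

/-- rotation along the longitude of the axis -/
noncomputable def rlam (f g F G : Fl) : ℝ :=
  f.b' + g.a' + g.c' + G.c + G.b' + F.a + G.a' - 2 * π

/-- angle structures of the complement of the closure of `∏ s_1^{a_i} s_2^{b_i}` times `m` full
twists -/
structure ChiAng (n : ℕ) (a : ℕ → ℤ) (m : ℤ) (f g F G : ℕ → Fl) : Prop where
  pos : ∀ j < n, (f j).Pos ∧ (g j).Pos ∧ (F j).Pos ∧ (G j).Pos
  diag : ∀ j < n, (f j).b + (f j).c' + ((g j).b + (g j).c') = 2 * π ∧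
    (F j).b + (F j).c' + ((G j).b + (G j).c') = 2 * π
  vert : ∀ j < n, VX (a ((j + 1) % n)) (f j) (g j) (F j) (G j)
    (f ((j + 1) % n)) (g ((j + 1) % n)) (F ((j + 1) % n)) (G ((j + 1) % n))
  /-- the rotation along two parallel copies of the filling slope of the axis is `-4 π` -/
  fill : ∑ j ∈ range n, rho (f j) (g j) (F j) (G j) = -(4 * π + 2 * m * rlam (f 0) (g 0) (F 0) (G 0))

/-- the volume: eight ideal tetrahedra for every edge -/
noncomputable def chiVol (n : ℕ) (f g F G : ℕ → Fl) : ℝ :=
  ∑ j ∈ range n, ((f j).vol + (g j).vol + (F j).vol + (G j).vol)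

/-- the volume at an edge, up to terms which cancel in the sum over the ring -/
noncomputable def hvX (ψ ψ' χ u : ℂ) : ℝ :=
  2 * Dv (Complex.exp (Complex.I * u)) + Dv (Complex.exp (Complex.I * (u + χ))) +
    Dv (Complex.exp (Complex.I * (u - χ))) + Dv (-Complex.exp (Complex.I * (ψ - u))) +
    Dv (-Complex.exp (-(Complex.I * (u + ψ)))) + Dv (-Complex.exp (Complex.I * (ψ' - u))) +
    Dv (-Complex.exp (-(Complex.I * (u + ψ'))))

/-- a solution of the critical point equations -/
structure CritX (n : ℕ) (a : ℕ → ℤ) (m : ℤ) (z : ℕ → ℂ) (χ : ℂ) (u : ℕ → ℂ) : Prop where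
  hx : ∀ j < n, HX (z j) (z ((j + 1) % n)) χ (u j)
  vert : ∀ j < n, Complex.I * (a ((j + 1) % n) * z ((j + 1) % n) + 2 * π) =
    Lg (u j) (z ((j + 1) % n)) + Lg (u ((j + 1) % n)) (z ((j + 1) % n))
  axis : Complex.I * (2 * m * χ + 2 * π) = ∑ j ∈ range n, Lc (u j) χ

/-- the critical value is the maximal volume of the angle structures -/
def S_GEOX : Prop := ∀ (n : ℕ) (a : ℕ → ℤ) (m : ℤ) (z : ℕ → ℂ) (χ : ℂ) (u : ℕ → ℂ), 1 ≤ n →
  CritX n a m z χ u →
    IsGreatest {W : ℝ | ∃ f g F G : ℕ → Fl, ChiAng n a m f g F G ∧ chiVol n f g F G = W}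
      (∑ j ∈ range n, hvX (z j) (z ((j + 1) % n)) χ (u j))

end Pool.Agent.Y482.Chi
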