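import Pool.Agent.Y482.Chi.Vol
import Pool.Agent.Y482.Chi.Defs

/-!
# From the conditions at an edge to the data of a block; the volume of a block
-/

set_option autoImplicit false

namespace Pool.Agent.Y482.Chi

open Filter
open Complex (exp log cos sin I)
open Pool.Agent.W711.HT
open Pool.Agent.W719.AR (Fl S_VLF fla flS YY WW)
open Pool.Agent.W709.VC (Dv)
open scoped Real Topology

/-! ### The inverse of the cosine -/

noncomputable def acf (R : ℂ) : ℂ := π / 2 + I * log (I * R + exp (log (1 - R ^ 2) / 2))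

lemma acf_aux {R : ℂ} (hR : ‖R‖ ≤ 1 / 125) :
    ‖I * R + exp (log (1 - R ^ 2) / 2) - 1‖ ≤ 1 / 120 ∧ ‖log (1 - R ^ 2) / 2‖ ≤ 1 / 10000 ∧
      1 - R ^ 2 ≠ 0 := by
  have n0 := norm_nonneg R
  have h1 : ‖-R ^ 2‖ ≤ 1 / 15625 := by
    rw [norm_neg, norm_pow]
    nlinarith
  have h2 := Complex.norm_log_one_add_half_le_self (z := -R ^ 2) (h1.trans (by norm_num))
  have h3 : ‖log (1 - R ^ 2) / 2‖ ≤ 1 / 10000 := by
    rw [norm_div, show (1 : ℂ) - R ^ 2 = 1 + -R ^ 2 by ring]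
    have : ‖(2 : ℂ)‖ = 2 := by norm_num
    rw [this]
    linarith
  have h4 := exp_le' (x := log (1 - R ^ 2) / 2) (h3.trans (by norm_num))
  refine ⟨?_, h3, ?_⟩
  · have : I * R + exp (log (1 - R ^ 2) / 2) - 1 = I * R + (exp (log (1 - R ^ 2) / 2) - 1) := by ring
    rw [this]
    refine (norm_add_le _ _).trans ?_
    rw [norm_mul, Complex.norm_I, one_mul]
    have := norm_nonneg (log (1 - R ^ 2) / 2)
    nlinarith
  · intro h
    have : R ^ 2 = 1 := by linear_combination -h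
    have h5 : ‖R ^ 2‖ = 1 := by rw [this]; simp
    rw [norm_neg, h5] at h1
    norm_num at h1

lemma acf_ne {R : ℂ} (hR : ‖R‖ ≤ 1 / 125) : I * R + exp (log (1 - R ^ 2) / 2) ≠ 0 := by
  intro h
  have := (acf_aux hR).1
  rw [h] at this
  norm_num at this

lemma acf_cos {R : ℂ} (hR : ‖R‖ ≤ 1 / 125) : cos (acf R) = R := by
  obtain ⟨-, -, h2⟩ := acf_aux hR
  have h3 := acf_ne hR
  set Q := exp (log (1 - R ^ 2) / 2) with hQ
  have hQ2 : Q ^ 2 = 1 - R ^ 2 := by
    rw [hQ, ← Complex.exp_nat_mul]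
    push_cast
    rw [show (2 : ℂ) * (log (1 - R ^ 2) / 2) = log (1 - R ^ 2) by ring, Complex.exp_log h2]
  have h4 : exp (log (I * R + Q)) = I * R + Q := Complex.exp_log h3
  have h5 : exp (-log (I * R + Q)) = Q - I * R := by
    rw [Complex.exp_neg, h4, inv_eq_of_mul_eq_one_right]
    linear_combination hQ2 - R ^ 2 * Complex.I_sq
  unfold acf
  rw [← hQ, show (π : ℂ) / 2 + I * log (I * R + Q) = π / 2 - -(I * log (I * R + Q)) by ring,
    Complex.cos_pi_div_two_sub, Complex.sin]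
  rw [show -(-(I * log (I * R + Q))) * I = -log (I * R + Q) by
      linear_combination (log (I * R + Q)) * Complex.I_sq,
    show -(I * log (I * R + Q)) * I = log (I * R + Q) by
      linear_combination (-log (I * R + Q)) * Complex.I_sq, h4, h5]
  linear_combination (-R) * Complex.I_sq

lemma acf_near {R : ℂ} (hR : ‖R‖ ≤ 1 / 125) : ‖acf R - π / 2‖ ≤ 1 / 75 := by
  have h1 := (acf_aux hR).1
  have h2 := Complex.norm_log_one_add_half_le_self (z := I * R + exp (log (1 - R ^ 2) / 2) - 1)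
    (h1.trans (by norm_num))
  unfold acf
  rw [show (π : ℂ) / 2 + I * log (I * R + exp (log (1 - R ^ 2) / 2)) - π / 2 =
    I * log (1 + (I * R + exp (log (1 - R ^ 2) / 2) - 1)) by
      rw [show 1 + (I * R + exp (log (1 - R ^ 2) / 2) - 1) = I * R + exp (log (1 - R ^ 2) / 2) by
        ring]; ring, norm_mul, Complex.norm_I, one_mul]
  linarith

lemma sp_of_near {z : ℂ} (h : ‖z - 1‖ ≤ 1 / 2) : z ∈ Complex.slitPlane := by
  rw [Complex.mem_slitPlane_iff]
  left
  have h1 := Complex.abs_re_le_norm (z - 1)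
  rw [Complex.sub_re, Complex.one_re] at h1
  have := neg_abs_le (z.re - 1)
  linarith

lemma acf_deriv {f : ℝ → ℂ} {f' : ℂ} {s : ℝ} (hf : HasDerivAt f f' s) (hR : ‖f s‖ ≤ 1 / 125) :
    ∃ p, HasDerivAt (fun t => acf (f t)) p s := by
  have n0 := norm_nonneg (f s)
  have h1 : HasDerivAt (fun t => log (1 - f t ^ 2)) _ s :=
    HasDerivAt.clog_real ((hf.fun_pow 2).const_sub 1) (sp_of_near (by
      rw [show 1 - f s ^ 2 - 1 = -f s ^ 2 by ring, norm_neg, norm_pow]
      nlinarith))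
  have h2 : HasDerivAt (fun t => log (I * f t + exp (log (1 - f t ^ 2) / 2))) _ s :=
    HasDerivAt.clog_real ((hf.const_mul I).add (hexp (h1.div_const 2))) (sp_of_near
      ((acf_aux hR).1.trans (by norm_num)))
  exact ⟨_, (h2.const_mul I).const_add ((π : ℂ) / 2)⟩

lemma cos_unique {x y : ℂ} (hx : ‖x - π / 2‖ ≤ π / 8) (hy : ‖y - π / 2‖ ≤ π / 8)
    (h : cos x = cos y) : x = y := by
  have hpi := Real.pi_pos
  have r1 : ∀ {w : ℂ}, ‖w - π / 2‖ ≤ π / 8 → |w.re - π / 2| ≤ π / 8 := by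
    intro w hw
    have h1 := (Complex.abs_re_le_norm _).trans hw
    rwa [Complex.sub_re, half_re] at h1
  have hx' := r1 hx
  have hy' := r1 hy
  rw [abs_le] at hx' hy'
  obtain ⟨k, hk⟩ := Complex.cos_eq_cos_iff.1 h
  have e : ((2 : ℂ) * k * π).re = 2 * k * π := by
    have : ((2 : ℂ) * k * π) = ((2 * k * π : ℝ) : ℂ) := by push_cast; ring
    rw [this, Complex.ofReal_re]
  rcases hk with hk | hk
  · have h1 := congrArg Complex.re hk
    rw [Complex.add_re, e] at h1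
    have h2 : (k : ℝ) < 1 := by
      by_contra hc
      rw [not_lt] at hc
      nlinarith
    have h3 : (-1 : ℝ) < k := by
      by_contra hc
      rw [not_lt] at hc
      nlinarith
    have h2' : k < 1 := by exact_mod_cast h2
    have h3' : -1 < k := by exact_mod_cast h3
    have : k = 0 := by omega
    rw [hk, this]
    simp
  · exfalso
    have h1 := congrArg Complex.re hk
    rw [Complex.sub_re, e] at h1
    have h2 : (k : ℝ) < 1 := by
      by_contra hc
      rw [not_lt] at hc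
      nlinarith
    have h3 : (0 : ℝ) < k := by
      by_contra hc
      rw [not_lt] at hc
      nlinarith
    have h2' : k < 1 := by exact_mod_cast h2
    have h3' : 0 < k := by exact_mod_cast h3
    omega

/-! ### The path -/

/-- `cos u` as a function of the other variables -/
noncomputable def Rf (b d c : ℂ) : ℂ :=
  (cos (2 * c) - cos (2 * b) * cos (2 * d)) / (1 + cos (2 * c) + cos (2 * b) + cos (2 * d))

lemma den_ne {b d c : ℂ} (hb : ‖b‖ ≤ 1 / 20) (hd : ‖d‖ ≤ 1 / 20) (hc : ‖c‖ ≤ 1 / 20) :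
    1 + cos (2 * c) + cos (2 * b) + cos (2 * d) ≠ 0 ∧ ‖Rf b d c‖ ≤ 1 / 125 := by
  have key : ∀ {x : ℂ}, ‖x‖ ≤ 1 / 20 → ‖cos (2 * x) - 1‖ ≤ 1 / 100 := by
    intro x hx
    have h1 : ‖2 * x‖ = 2 * ‖x‖ := by rw [norm_mul]; norm_num
    have n0 := norm_nonneg x
    have h2 := cos_sub_le (x := 2 * x) (by rw [h1]; linarith)
    rw [h1] at h2
    nlinarith
  have kb := key hb
  have kd := key hd
  have kc := key hc
  have h1 : ‖(1 + cos (2 * c) + cos (2 * b) + cos (2 * d)) - 4‖ ≤ 3 / 100 := by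
    rw [show (1 + cos (2 * c) + cos (2 * b) + cos (2 * d)) - 4 =
      (cos (2 * c) - 1) + (cos (2 * b) - 1) + (cos (2 * d) - 1) by ring]
    refine (norm_add_le _ _).trans ?_
    have := norm_add_le (cos (2 * c) - 1) (cos (2 * b) - 1)
    linarith
  have h2 : 397 / 100 ≤ ‖1 + cos (2 * c) + cos (2 * b) + cos (2 * d)‖ := by
    have := norm_sub_norm_le (4 : ℂ) (4 - (1 + cos (2 * c) + cos (2 * b) + cos (2 * d)))
    rw [norm_sub_rev] at h1
    rw [sub_sub_cancel] at this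
    have h4 : ‖(4 : ℂ)‖ = 4 := by norm_num
    rw [h4] at this
    linarith
  have h3 : ‖cos (2 * c) - cos (2 * b) * cos (2 * d)‖ ≤ 31 / 1000 := by
    rw [show cos (2 * c) - cos (2 * b) * cos (2 * d) = (cos (2 * c) - 1) -
      ((cos (2 * b) - 1) * (cos (2 * d) - 1) + (cos (2 * b) - 1) + (cos (2 * d) - 1)) by ring]
    refine (norm_sub_le _ _).trans ?_
    have m1 := norm_add_le ((cos (2 * b) - 1) * (cos (2 * d) - 1) + (cos (2 * b) - 1))
      (cos (2 * d) - 1)
    have m2 := norm_add_le ((cos (2 * b) - 1) * (cos (2 * d) - 1)) (cos (2 * b) - 1)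
    rw [norm_mul] at m2
    have n1 := norm_nonneg (cos (2 * b) - 1)
    have n2 := norm_nonneg (cos (2 * d) - 1)
    nlinarith
  refine ⟨fun h => by rw [h] at h2; norm_num at h2, ?_⟩
  unfold Rf
  rw [norm_div, div_le_iff₀ (by linarith)]
  linarith

/-- the block -/
lemma bx_acf {b d c : ℂ} (hb : ‖b‖ ≤ 1 / 20) (hd : ‖d‖ ≤ 1 / 20) (hc : ‖c‖ ≤ 1 / 20) :
    BX (acf (Rf b d c) / 2) b d c := by
  obtain ⟨h1, h2⟩ := den_ne hb hd hc
  have h3 := acf_near h2
  have h4 := acf_cos h2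
  have ha : ‖acf (Rf b d c) / 2 - π / 4‖ ≤ 1 / 150 := by
    rw [show acf (Rf b d c) / 2 - π / 4 = (acf (Rf b d c) - π / 2) / 2 by ring, norm_div]
    have : ‖(2 : ℂ)‖ = 2 := by norm_num
    rw [this]
    linarith
  refine ⟨⟨ha, hb, hc⟩, ⟨ha, by rwa [norm_neg], by rwa [norm_neg]⟩, ?_⟩
  rw [show 2 * (acf (Rf b d c) / 2) = acf (Rf b d c) by ring, h4]
  unfold Rf
  rw [div_mul_cancel₀ _ h1]

theorem HX.bx {ψ ψ' χ u : ℂ} (h : HX ψ ψ' χ u) :
    u = acf (Rf (ψ / 2) (ψ' / 2) (χ / 2)) ∧ BX (u / 2) (ψ / 2) (ψ' / 2) (χ / 2) := by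
  have n2 : ‖(2 : ℂ)‖ = 2 := by norm_num
  have hb : ‖ψ / 2‖ ≤ 1 / 20 := by rw [norm_div, n2]; linarith [h.sm]
  have hd : ‖ψ' / 2‖ ≤ 1 / 20 := by rw [norm_div, n2]; linarith [h.sm']
  have hc : ‖χ / 2‖ ≤ 1 / 20 := by rw [norm_div, n2]; linarith [h.smc]
  obtain ⟨h1, h2⟩ := den_ne hb hd hc
  have e : u = acf (Rf (ψ / 2) (ψ' / 2) (χ / 2)) := by
    apply cos_unique h.un
    · exact (acf_near h2).trans (by linarith [Real.pi_gt_three])
    · rw [acf_cos h2]
      unfold Rf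
      rw [eq_div_iff h1]
      rw [show 2 * (χ / 2) = χ by ring, show 2 * (ψ / 2) = ψ by ring,
        show 2 * (ψ' / 2) = ψ' by ring]
      exact h.eq
  refine ⟨e, ?_⟩
  rw [e]
  exact bx_acf hb hd hc

/-- the volume of a block in terms of that for `χ = 0` -/
theorem vol_path {b d c : ℂ} (hb : ‖b‖ ≤ 1 / 20) (hd : ‖d‖ ≤ 1 / 20) (hc : ‖c‖ < 1 / 20) :
    bv (acf (Rf b d c) / 2) b d c - hvt (acf (Rf b d c) / 2) b d c + eps (b + c) - eps (d + c) =
    bv (acf (Rf b d 0) / 2) b d 0 - hvt (acf (Rf b d 0) / 2) b d 0 + eps b - eps d := by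
  set F : ℝ → ℝ := fun t => bv (acf (Rf b d (t * c)) / 2) b d (t * c) -
    hvt (acf (Rf b d (t * c)) / 2) b d (t * c) + eps (b + t * c) - eps (d + t * c) with hF
  have hD : ∀ s ∈ Set.Icc (0 : ℝ) 1, HasDerivAt F 0 s := by
    intro s hs
    have hop : ∀ᶠ t : ℝ in 𝓝 s, ‖(t : ℂ) * c‖ < 1 / 20 := by
      have hcont : Continuous fun t : ℝ => ‖(t : ℂ) * c‖ := by fun_prop
      refine hcont.continuousAt.eventually_lt_const ?_
      change ‖(s : ℂ) * c‖ < 1 / 20
      rw [norm_mul, Complex.norm_real, Real.norm_eq_abs, abs_of_nonneg hs.1]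
      have := norm_nonneg c
      nlinarith [hs.2]
    have hcf : HasDerivAt (fun t : ℝ => (t : ℂ) * c) c s := by
      have := (Complex.ofRealCLM.hasDerivAt (x := s)).mul_const c
      simpa using this
    have hsn := hop.self_of_nhds.le
    obtain ⟨d1, d2⟩ := den_ne hb hd hsn
    have c1 := hcos (hcf.const_mul 2)
    have hR : HasDerivAt (fun t : ℝ => Rf b d (t * c)) _ s :=
      (c1.sub_const (cos (2 * b) * cos (2 * d))).div
        (((c1.const_add 1).add_const (cos (2 * b))).add_const (cos (2 * d))) d1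
    obtain ⟨p, hp⟩ := acf_deriv hR d2
    exact dvol (hp.div_const 2) (by
      filter_upwards [hop] with t ht using bx_acf hb hd ht.le)
  have hconst := constant_of_has_deriv_right_zero (f := F) (a := 0) (b := 1)
    (fun s hs => (hD s hs).continuousAt.continuousWithinAt)
    (fun s hs => (hD s ⟨hs.1, hs.2.le⟩).hasDerivWithinAt) 1 ⟨zero_le_one, le_rfl⟩
  simp only [hF, Complex.ofReal_one, one_mul, Complex.ofReal_zero, zero_mul, add_zero] at hconst
  exact hconst

end Pool.Agent.Y482.Chi
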