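import Pool.Agent.Y482.Chi.Ring
import Pool.Agent.Y482.GeoF
import Pool.Agent.Y472.B.Defs

/-!
# Closed 3-braids with full twists: the critical value is the maximal volume
-/

set_option autoImplicit false

namespace Pool.Agent.Y482.Chi

open Finset Filter Topology
open Pool.Agent.W711.HT
open Pool.Agent.W719.AR (Fl S_VLF)
open Pool.Agent.W709.VC (Dv)
open Pool.Agent.Y472 (SD3 RCrit3 RVal3)
open scoped Real

theorem geox : S_GEOX := geox_of Pool.Agent.W120.VC.tet g_VLF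

lemma lg_lc (u χ : ℂ) : Lg (π - u) χ = Lc u χ := by
  unfold Lg Lc
  rw [show ((π : ℂ) - u - χ) / 2 = π / 2 - (u + χ) / 2 by ring,
    show ((π : ℂ) - u + χ) / 2 = π / 2 - (u - χ) / 2 by ring, Complex.cos_pi_div_two_sub,
    Complex.cos_pi_div_two_sub]

/-- the value of the potential at an edge -/
theorem pot3 (hP : S_POTH) {δ ψ ψ' χ : ℂ} (h1 : ‖δ - 1 / 4‖ ≤ 1 / 16) (hψ : ‖ψ‖ ≤ 1 / 10)
    (hψ' : ‖ψ'‖ ≤ 1 / 10) (hχ : ‖χ‖ ≤ 1 / 10)
    (hc : Complex.log (2 * Complex.cos ψ + 2 * Complex.cos (2 * π * δ)) +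
      Complex.log (2 * Complex.cos ψ' + 2 * Complex.cos (2 * π * δ)) =
      Complex.log (2 * Complex.cos χ - 2 * Complex.cos (2 * π * δ)) +
      2 * Complex.log (2 * Complex.sin (π * δ))) :
    2 * π * (rrF δ ψ + rrF δ ψ' + rrF (1 / 2 - δ) χ - 2 * ssF δ).re =
      hvX ψ ψ' χ (2 * π * δ) + ψ.im * (Lg (2 * π * δ) ψ).im +
        ψ'.im * (Lg (2 * π * δ) ψ').im + χ.im * (Lc (2 * π * δ) χ).im := by
  obtain ⟨a1, a2⟩ := hP δ ψ h1 (hψ.trans (by norm_num))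
  obtain ⟨b1, -⟩ := hP δ ψ' h1 (hψ'.trans (by norm_num))
  obtain ⟨c1, -⟩ := hP (1 / 2 - δ) χ (by
    rw [show 1 / 2 - δ - 1 / 4 = -(δ - 1 / 4) by ring, norm_neg]
    exact h1) (hχ.trans (by norm_num))
  have hu : 2 * (π : ℂ) * (1 / 2 - δ) = π - 2 * π * δ := by ring
  rw [hu, lg_lc, Complex.cos_pi_sub] at c1
  have e1 : -Complex.exp (Complex.I * (χ - (π - 2 * π * δ))) =
      Complex.exp (Complex.I * (2 * π * δ + χ)) := by
    rw [show Complex.I * (χ - (π - 2 * π * δ)) = Complex.I * (2 * π * δ + χ) - π * Complex.I by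
      ring, Complex.exp_sub, Complex.exp_pi_mul_I]
    ring
  have e2 : -Complex.exp (-(Complex.I * (π - 2 * π * δ + χ))) =
      Complex.exp (Complex.I * (2 * π * δ - χ)) := by
    rw [show -(Complex.I * (π - 2 * π * δ + χ)) = Complex.I * (2 * π * δ - χ) - π * Complex.I by
      ring, Complex.exp_sub, Complex.exp_pi_mul_I]
    ring
  rw [e1, e2] at c1
  have e3 : ((π : ℂ) - 2 * π * δ).im = -(2 * π * δ).im := by
    rw [Complex.sub_im, Complex.ofReal_im, zero_sub]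
  have e4 : 2 * Complex.cos χ + 2 * -Complex.cos (2 * π * δ) =
      2 * Complex.cos χ - 2 * Complex.cos (2 * π * δ) := by ring
  rw [e3, e4] at c1
  have h3 := congrArg Complex.im hc
  have t1 : ∀ w : ℂ, (2 * w).im = 2 * w.im := fun w => by simp
  have t2 : ∀ w : ℂ, (2 * w).re = 2 * w.re := fun w => by simp
  rw [Complex.add_im, Complex.add_im, t1 (Complex.log (2 * Complex.sin (π * δ)))] at h3
  unfold hvX
  rw [Complex.sub_re, Complex.add_re, Complex.add_re, t2]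
  linear_combination a1 + b1 + c1 + 2 * a2 - (2 * π * δ).im * h3

section
variable {ρ₀ c C : ℝ} {s dl : ℂ → ℂ → ℂ → ℂ}

lemma der2x (hS : SD3 ρ₀ c C s dl) {ψ ψ' χ : ℂ} (h : ψ ∈ Rc ρ₀ ρ₀) (h' : ψ' ∈ Rc ρ₀ ρ₀)
    (hχ : χ ∈ Rc ρ₀ ρ₀) :
    deriv (fun w => s ψ w χ) ψ' = -(1 / (2 * π)) * Lg (2 * π * dl ψ ψ' χ) ψ' := by
  have hop : IsOpen (Rc ρ₀ ρ₀) := by
    have e : Rc ρ₀ ρ₀ = (fun z : ℂ => |z.re|) ⁻¹' Set.Iio ρ₀ ∩ (fun z : ℂ => |z.im|) ⁻¹' Set.Iio ρ₀ :=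
      rfl
    rw [e]
    exact (isOpen_Iio.preimage (by fun_prop)).inter (isOpen_Iio.preimage (by fun_prop))
  have h1 := hS.sder ψ' h' ψ h χ hχ
  have h2 : (fun w => s ψ w χ) =ᶠ[𝓝 ψ'] fun w => s w ψ χ := by
    filter_upwards [hop.mem_nhds h'] with w hw using hS.sym _ h _ hw _ hχ
  rw [(h1.congr_of_eventuallyEq h2).deriv, hS.dsym _ h' _ h _ hχ]

/-- the critical points of the potential -/
theorem crit_of (hS : SD3 ρ₀ c C s dl) {n : ℕ} {a : ℕ → ℤ} {m : ℤ} {z : ℕ → ℂ} {χ : ℂ}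
    (hn : 1 ≤ n) (h : RCrit3 s ρ₀ n a m z χ) (hχ : ‖χ‖ < 1 / 10) :
    CritX n a m z χ (fun j => 2 * π * dl (z j) (z ((j + 1) % n)) χ) := by
  obtain ⟨mc, ic, -, hv, ha⟩ := h
  have hpi : (π : ℂ) ≠ 0 := Complex.ofReal_ne_zero.2 Real.pi_ne_zero
  have z0 : ∀ w : ℂ, 0 < w.im → w ≠ 0 := by
    intro w hw h0
    rw [h0] at hw
    simp at hw
  refine ⟨?_, ?_, ?_⟩
  · intro j hj
    have h1 : (j + 1) % n < n := Nat.mod_lt _ (by omega)
    obtain ⟨m1, i1, n1, -⟩ := hv j hj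
    obtain ⟨m2, i2, n2, -⟩ := hv _ h1
    refine ⟨z0 _ i1, z0 _ i2, n1, n2, hχ, ?_, ?_⟩
    · have h3 := (hS.dclose _ m1 _ m2 _ mc).1
      rw [show (2 : ℂ) * π * dl (z j) (z ((j + 1) % n)) χ - π / 2 =
        2 * π * (dl (z j) (z ((j + 1) % n)) χ - 1 / 4) by ring, norm_mul, norm_mul,
        Complex.norm_ofNat, Complex.norm_real, Real.norm_eq_abs, abs_of_pos Real.pi_pos]
      nlinarith [Real.pi_pos]
    · have h3 := hS.dcos _ m1 _ m2 _ mc
      have h4 : (1 + Complex.cos χ + Complex.cos (z j) + Complex.cos (z ((j + 1) % n))) ≠ 0 := by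
        have n1' : ‖z j / 2‖ ≤ 1 / 20 := by rw [norm_div, Complex.norm_ofNat]; linarith
        have n2' : ‖z ((j + 1) % n) / 2‖ ≤ 1 / 20 := by rw [norm_div, Complex.norm_ofNat]; linarith
        have n3' : ‖χ / 2‖ ≤ 1 / 20 := by rw [norm_div, Complex.norm_ofNat]; linarith
        have := (den_ne n1' n2' n3').1
        rwa [show 2 * (χ / 2) = χ by ring, show 2 * (z j / 2) = z j by ring,
          show 2 * (z ((j + 1) % n) / 2) = z ((j + 1) % n) by ring] at this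
      rw [h3, div_mul_cancel₀ _ h4]
  · intro j hj
    have h1 : (j + 1) % n < n := Nat.mod_lt _ (by omega)
    have h2 : ((j + 1) % n + 1) % n < n := Nat.mod_lt _ (by omega)
    obtain ⟨m1, -, -, e1⟩ := hv j hj
    obtain ⟨m2, -⟩ := hv _ h1
    obtain ⟨m3, -⟩ := hv _ h2
    rw [der2x hS m1 m2 mc, (hS.sder _ m2 _ m3 _ mc).deriv] at e1
    have h3 : (2 : ℂ) * π * (Complex.I * a ((j + 1) % n) * z ((j + 1) % n) / (2 * π) + Complex.I +
      -(1 / (2 * π)) * Lg (2 * π * dl (z j) (z ((j + 1) % n)) χ) (z ((j + 1) % n)) +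
      -(1 / (2 * π)) * Lg (2 * π * dl (z ((j + 1) % n)) (z (((j + 1) % n + 1) % n)) χ)
        (z ((j + 1) % n))) = 0 := by rw [e1, mul_zero]
    field_simp at h3
    linear_combination h3
  · have e2 : ∀ j ∈ range n, deriv (fun w => s (z j) (z ((j + 1) % n)) w) χ =
        -(1 / (2 * π)) * Lc (2 * π * dl (z j) (z ((j + 1) % n)) χ) χ := by
      intro j hj
      rw [mem_range] at hj
      have h1 : (j + 1) % n < n := Nat.mod_lt _ (by omega)
      obtain ⟨m1, -⟩ := hv j hj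
      obtain ⟨m2, -⟩ := hv _ h1
      rw [(hS.sderc _ m1 _ m2 _ mc).deriv, lg_lc]
    rw [sum_congr rfl e2, ← mul_sum] at ha
    have h3 : (2 : ℂ) * π * (Complex.I * m * χ / π + Complex.I + -(1 / (2 * π)) *
      ∑ j ∈ range n, Lc (2 * π * dl (z j) (z ((j + 1) % n)) χ) χ) = 0 := by rw [ha, mul_zero]
    field_simp at h3
    linear_combination h3

/-- the critical value -/
theorem val_of (hP : S_POTH) (hS : SD3 ρ₀ c C s dl) {n : ℕ} {a : ℕ → ℤ} {m : ℤ} {z : ℕ → ℂ}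
    {χ : ℂ} (hn : 1 ≤ n) (h : RCrit3 s ρ₀ n a m z χ) (hχ : ‖χ‖ < 1 / 10) :
    2 * π * (RVal3 s n a m z χ).re = ∑ j ∈ range n, hvX (z j) (z ((j + 1) % n)) χ
      (2 * π * dl (z j) (z ((j + 1) % n)) χ) := by
  have hX := crit_of hS hn h hχ
  obtain ⟨mc, ic, nc, hv, ha⟩ := h
  unfold RVal3
  rw [Complex.add_re, Complex.re_sum, mul_add, mul_sum]
  have e0 : ∀ j ∈ range n, 2 * π * (Complex.I * a j * z j ^ 2 / (4 * π) + Complex.I * z j +
      s (z j) (z ((j + 1) % n)) χ).re =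
      hvX (z j) (z ((j + 1) % n)) χ (2 * π * dl (z j) (z ((j + 1) % n)) χ) +
      ((z j).im * ((Lg (2 * π * dl (z j) (z ((j + 1) % n)) χ) (z j)).im -
        ((a j : ℝ) * (z j).re + 2 * π))) +
      (z ((j + 1) % n)).im *
        (Lg (2 * π * dl (z j) (z ((j + 1) % n)) χ) (z ((j + 1) % n))).im +
      χ.im * (Lc (2 * π * dl (z j) (z ((j + 1) % n)) χ) χ).im := by
    intro j hj
    rw [mem_range] at hj
    have h1 : (j + 1) % n < n := Nat.mod_lt _ (by omega)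
    obtain ⟨m1, i1, n1, -⟩ := hv j hj
    obtain ⟨m2, i2, n2, -⟩ := hv _ h1
    have t1 := pot3 hP (hS.dclose _ m1 _ m2 _ mc).1 n1 n2 nc (hS.dcrit _ m1 _ m2 _ mc)
    have t2 := Pool.Agent.W571.AR.val_re (a j) (z j)
    rw [Complex.add_re, mul_add, hS.scrit _ m1 _ m2 _ mc, t1, t2]
    ring
  rw [sum_congr rfl e0, sum_add_distrib, sum_add_distrib, sum_add_distrib,
    ← sum_succ_mod n hn (fun j => (z j).im * ((Lg (2 * π * dl (z j) (z ((j + 1) % n)) χ) (z j)).im -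
        ((a j : ℝ) * (z j).re + 2 * π))), ← mul_sum]
  have e1 : ∑ j ∈ range n, ((z ((j + 1) % n)).im *
      ((Lg (2 * π * dl (z ((j + 1) % n)) (z (((j + 1) % n + 1) % n)) χ) (z ((j + 1) % n))).im -
        ((a ((j + 1) % n) : ℝ) * (z ((j + 1) % n)).re + 2 * π))) +
      ∑ j ∈ range n, (z ((j + 1) % n)).im *
        (Lg (2 * π * dl (z j) (z ((j + 1) % n)) χ) (z ((j + 1) % n))).im = 0 := by
    rw [← sum_add_distrib]
    refine sum_eq_zero fun j hj => ?_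
    rw [mem_range] at hj
    have e2 := Pool.Agent.W571.AR.im_eq _ _ _ (hX.vert j hj)
    rw [Complex.add_im] at e2
    linear_combination (-(z ((j + 1) % n)).im) * e2
  have e3 : 2 * π * (Complex.I * m * χ ^ 2 / (2 * π) + Complex.I * χ).re =
      -(χ.im * (2 * m * χ.re + 2 * π)) := by
    have := Pool.Agent.W571.AR.val_re (2 * m) χ
    push_cast at this
    rw [show Complex.I * (m : ℂ) * χ ^ 2 / (2 * π) = Complex.I * (2 * m) * χ ^ 2 / (4 * π) by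
      ring, this]
  have e4 := hX.axis
  have e5 : (Complex.I * (2 * m * χ + 2 * π)).im = 2 * m * χ.re + 2 * π := by
    simp
  have e6 : ∑ j ∈ range n, (Lc (2 * π * dl (z j) (z ((j + 1) % n)) χ) χ).im =
      2 * m * χ.re + 2 * π := by
    rw [← e5, e4, Complex.im_sum]
  rw [e3, e6]
  linear_combination e1

end

/-- the critical value is the maximal volume of the angle structures -/
theorem geox3 {ρ₀ c C : ℝ} {s dl : ℂ → ℂ → ℂ → ℂ} (hS : SD3 ρ₀ c C s dl) {n : ℕ} {a : ℕ → ℤ}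
    {m : ℤ} {z : ℕ → ℂ} {χ : ℂ} (hn : 1 ≤ n) (h : RCrit3 s ρ₀ n a m z χ) (hχ : ‖χ‖ < 1 / 10) :
    IsGreatest {W : ℝ | ∃ f g F G : ℕ → Fl, ChiAng n a m f g F G ∧ chiVol n f g F G = W}
      (2 * π * (RVal3 s n a m z χ).re) := by
  rw [val_of Pool.Agent.W583.HTP.poth hS hn h hχ]
  exact geox n a m z χ _ hn (crit_of hS hn h hχ)

end Pool.Agent.Y482.Chi
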