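import Mathlib

/-! # The derivative of the volume of a block: linear algebra -/

set_option autoImplicit false

namespace Pool.Agent.Y482.Chi

theorem blk_alg (fa fb fc fa' fb' fc' ga gb gc ga' gb' gc' Fa Fb Fc Fa' Fb' Fc' Ga Gb Gc Ga' Gb' Gc'
    sa sp sm Cp Cm Dp Dm kb kd K Km K' Km' U Ut ya yb yd yc : ℝ)
    (h1 : fc = -fa - fb) (h2 : fc' = -fa' - fb') (h3 : gc = -ga - gb) (h4 : gc' = -ga' - gb')
    (h5 : Fc = -Fa - Fb) (h6 : Fc' = -Fa' - Fb') (h7 : Gc = -Ga - Gb) (h8 : Gc' = -Ga' - Gb')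
    (h9 : gb = -fb - fc' - gc') (h10 : Gb = -Fb - Fc' - Gc')
    (r1 : Dm = 2 * sa + sp + sm - Cp - Cm - Dp) (r3 : Km' = 2 * kb + sp + sm - Cp - Cm - K')
    (r4 : Km = 2 * kd - 2 * sa + Cp + Cm - K) (r2 : Ut = U + sa + sm + yc - Cp - Cm) :
    (-(Cp - yb - sa) * fa + (kb - ya - Cp) * fb - (K - ya - yc - Cm) * fa' +
      (sp + ya - yb - K) * fb') +
    (-(Dm + yd - sa) * ga + (kd - ya - Dm) * gb - (K' - ya + yc - Dp) * ga' +
      (sm + ya + yd - K') * gb') +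
    (-(-yb + Cp + K - kb - sp) * Fa + (U - Cp - K) * Fb - (U + yc - Cm - kb) * Fa' +
      (sa - yb + K - U) * Fb') +
    (-(yd + Dm + K' - kd - sm) * Ga + (Ut - Dm - K') * Gb - (Ut - yc - Dp - kd) * Ga' +
      (sa + yd + K' - Ut) * Gb') =
    kb * ((fc + ga + Fc + Gb') + (fa + fa' + Fb) + (fb + Fa + Fa')) +
    (K + Km) / 2 * ((fc + fb' + Fc') + (fa' + gb' + Fa' + Ga)) + K * (fc' + Fc + Fb') +
    kd * ((fa + gc + Fb' + Gc) + (ga + ga' + Gb) + (gb + Ga + Ga')) +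
    (K' + Km') / 2 * ((gc + gb' + Gc') + (fb' + ga' + Fa + Ga')) + K' * (gc' + Gc + Gb') +
    (Cm - Cp) / 2 * ((fa + fa' + Fb) + (fb + Fa + Fa')) -
    (Dm - Dp) / 2 * ((ga + ga' + Gb) + (gb + Ga + Ga')) +
    (sp - sm) / 2 * (fb' + ga' + gc' + Gc + Gb' + Fa + Ga') +
    yb * ((fa + fa' + fc') + (Fa + Fa' + Fc')) - yd * ((ga + ga' + gc') + (Ga + Ga' + Gc')) -
    yc * ((fc' + fb' + ga') + (Fa' + Ga + Gc + Gb')) := by
  subst h1 h2 h3 h4 h5 h6 h7 h8 h9 h10 r2 r1 r3 r4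
  ring

end Pool.Agent.Y482.Chi

namespace Pool.Agent.Y482.Chi

/-- the derivative of the volume of a block along a curve with constant `b`, `d` -/
theorem vol_alg (sa sp sm Cp Cm Dp Dm kb kd K Km K' Km' U Ut ya yb yd yc L2 : ℝ)
    (dsa dsp dsm dCp dCm dDp dDm dK dKm dK' dKm' dU dUt xa xc B1 B2 dB1 dB2 E1 E2 dE1 dE2 : ℝ)
    (r1 : Dm = 2 * sa + sp + sm - Cp - Cm - Dp) (r3 : Km' = 2 * kb + sp + sm - Cp - Cm - K')
    (r4 : Km = 2 * kd - 2 * sa + Cp + Cm - K) (r2 : Ut = U + sa + sm + yc - Cp - Cm)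
    (q1 : dDm = 2 * dsa + dsp + dsm - dCp - dCm - dDp) (q3 : dKm' = dsp + dsm - dCp - dCm - dK')
    (q4 : dKm = -2 * dsa + dCp + dCm - dK) (q2 : dUt = dU + dsa + dsm - xc - dCp - dCm)
    (b1 : B2 = -K - L2 - B1) (b2 : dB2 = -dK - dB1) (b3 : E2 = -K' - L2 - E1)
    (b4 : dE2 = -dK' - dE1) :
    ((Cp - yb - sa) * (xa - dCp) - (kb - ya - Cp) * (dCp - dsa)) +
    ((K - ya - yc - Cm) * (dsp - xa - dK) - (sp + ya - yb - K) * (dK + xa + xc - dCm)) +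
    ((Dm + yd - sa) * (xa - dDm) - (kd - ya - Dm) * (dDm - dsa)) +
    ((K' - ya + yc - Dp) * (dsm - xa - dK') - (sm + ya + yd - K') * (dK' + xa - xc - dDp)) +
    ((-yb + Cp + K - kb - sp) * (dU - dCp - dK) - (U - Cp - K) * (dCp + dK - dsp)) +
    ((U + yc - Cm - kb) * (dsa + dK - dU) - (sa - yb + K - U) * (dU - xc - dCm)) +
    ((yd + Dm + K' - kd - sm) * (dUt - dDm - dK') - (Ut - Dm - K') * (dDm + dK' - dsm)) +
    ((Ut - yc - Dp - kd) * (dsa + dK' - dUt) - (sa + yd + K' - Ut) * (dUt + xc - dDp)) -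
    (2 * ((ya - sa - L2) * (2 * xa) - (-2 * ya) * (-xa - dsa)) +
      ((ya + yc - sp - L2) * (2 * (xa + xc)) - (-2 * (ya + yc)) * (-(xa + xc) - dsp)) +
      ((ya - yc - sm - L2) * (2 * (xa - xc)) - (-2 * (ya - yc)) * (-(xa - xc) - dsm)) +
      ((-(ya - yb) - Cm - L2) * (-2 * xa) - (2 * (ya - yb)) * (xa - dCm)) +
      ((-(ya + yb) - Cp - L2) * (-2 * xa) - (2 * (ya + yb)) * (xa - dCp)) +
      ((-(ya - yd) - Dm - L2) * (-2 * xa) - (2 * (ya - yd)) * (xa - dDm)) +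
      ((-(ya + yd) - Dp - L2) * (-2 * xa) - (2 * (ya + yd)) * (xa - dDp))) +
    2 * ((B1 * xc - (-(yb + yc)) * dB1) - (B2 * (-xc) - (yb + yc) * dB2)) -
    2 * ((E1 * xc - (-(yd + yc)) * dE1) - (E2 * (-xc) - (yd + yc) * dE2)) = 0 := by
  subst r1 r3 r4 r2 q1 q3 q4 q2 b1 b2 b3 b4
  ring

end Pool.Agent.Y482.Chi
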