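import Pool.Agent.Y482.Chi.Rel

/-!
# The angles of a block
-/

set_option autoImplicit false

namespace Pool.Agent.Y482.Chi

open Complex (exp log cos sin I)
open Pool.Agent.W719.AR (Fl)
open scoped Real Topology

/-- the angles of two ideal tetrahedra -/
noncomputable def flE (A B A' B' : ℂ) : Fl :=
  ⟨A.im, B.im, th A B, A'.im, B'.im, th A' B'⟩

/-- front octahedron, seen from a crossing circle -/
noncomputable def flA (a b c : ℂ) : Fl := flE (aA1 a b) (aB1 a b) (aA2 a b c) (aB2 a b c)

/-- back octahedron, seen from a crossing circle -/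
noncomputable def flB (a b c : ℂ) : Fl := flE (bA1 a b c) (bB1 a b c) (bA2 a b c) (bB2 a b c)

lemma flE_pos {A B A' B' : ℂ} (h : Tri A B) (h' : Tri A' B') : (flE A B A' B').Pos := by
  refine ⟨h.pA, h.pB, h.th_pos, ?_, h'.pA, h'.pB, h'.th_pos, ?_⟩
  · simp only [flE, th]; ring
  · simp only [flE, th]; ring

lemma Sm.posA {a b c : ℂ} (h : Sm a b c) : (flA a b c).Pos := flE_pos (tri_a1 h) (tri_a2 h)

lemma Sm.posB {a b c : ℂ} (h : Sm a b c) : (flB a b c).Pos := flE_pos (tri_b1 h) (tri_b2 h)

lemma im_two (x : ℂ) : (2 * x).im = 2 * x.im := by simp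

lemma re_two (x : ℂ) : (2 * x).re = 2 * x.re := by simp

/-- the relations between the arguments -/
lemma BX.im {a b d c : ℂ} (h : BX a b d c) :
    (log (cos (a + b))).im + (log (cos (a - b))).im + (log (cos (a + d))).im +
      (log (cos (a - d))).im =
      2 * (log (sin a)).im + (log (sin (a + c))).im + (log (sin (a - c))).im ∧
    (ups a (-d) (-c)).im = (ups a b c).im + (log (sin a)).im + (log (sin (a - c))).im - c.re -
      (log (cos (a + b))).im - (log (cos (a - b))).im := by
  have h1 := congrArg Complex.im h.r1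
  have h2 := congrArg Complex.im h.r2
  simp only [Complex.add_im, Complex.sub_im, im_two, im_I_mul] at h1 h2
  exact ⟨h1, h2⟩

/-- the relations between the angles of a block -/
structure BlkAng (f g F G : Fl) (x y t : ℝ) : Prop where
  dA : f.b + f.c' + (g.b + g.c') = 2 * π
  dB : F.b + F.c' + (G.b + G.c') = 2 * π
  BS : f.c + g.a + F.c + G.b' = π - x
  TS : f.a + g.c + F.b' + G.c = π + y
  BA : f.a' + g.b' + F.a' + G.a = π + x - t
  TA : f.b' + g.a' + F.a + G.a' = π - y + t
  CAb : f.c' + F.c + F.b' = π - x - t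
  CAt : g.c' + G.c + G.b' = π + y + t
  CRb : f.c + f.b' + F.c' = π - x + t
  CRt : g.c + g.b' + G.c' = π + y - t
  Pb : f.a + f.a' + F.b = π + x
  Qb : f.b + F.a + F.a' = π + x
  Pt : g.a + g.a' + G.b = π - y
  Qt : g.b + G.a + G.a' = π - y

theorem blkAng {a b d c : ℂ} (h : BX a b d c) :
    BlkAng (flA a b c) (flA a (-d) (-c)) (flB a b c) (flB a (-d) (-c)) (2 * b.re) (2 * d.re)
      (2 * c.re) := by
  obtain ⟨h1, h2⟩ := h.im
  constructor <;>
  · simp only [flA, flB, flE, th, aA1, aB1, aA2, aB2, bA1, bB1, bA2, bB2, Complex.cos_neg,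
      ← sub_eq_add_neg, sub_neg_eq_add, ← neg_add', Complex.add_im, Complex.sub_im, im_I_mul,
      half_re, Complex.neg_re]
    have e1 : cos (-d - c) = cos (d + c) := by rw [← Complex.cos_neg]; congr 1; ring
    try rw [e1]
    linarith

end Pool.Agent.Y482.Chi
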