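import Pool.Agent.Y482.Chi.Path

/-!
# The volume of a block
-/

set_option autoImplicit false

namespace Pool.Agent.Y482.Chi

open Filter
open Complex (exp log cos sin I)
open Pool.Agent.W711.HT
open Pool.Agent.W719.AR (Fl S_VLF fla flS YY WW)
open Pool.Agent.W709.VC (Dv)
open scoped Real Topology

lemma exp_xA (a : ℂ) : exp (xA a) = exp (I * (2 * a)) := rfl

lemma exp_yA (y : ℂ) : exp (yA y) = -exp (-(I * (2 * y))) := by
  unfold yA
  rw [show I * (π : ℂ) - I * (2 * y) = π * I + -(I * (2 * y)) by ring, Complex.exp_add,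
    Complex.exp_pi_mul_I]
  ring

/-- the potential -/
lemma hvt_eq {ψ ψ' χ u : ℂ} (h : BX (u / 2) (ψ / 2) (ψ' / 2) (χ / 2)) :
    hvt (u / 2) (ψ / 2) (ψ' / 2) (χ / 2) = hvX ψ ψ' χ u := by
  have na := h.s1.a
  have nb := h.s1.b
  have nd := h.hd
  have nc := h.s1.c
  have k1 : ∀ {x : ℂ}, ‖x‖ ≤ 1 / 20 → ‖u / 2 + x - π / 4‖ ≤ 17 / 300 := by
    intro x hx
    rw [show u / 2 + x - π / 4 = (u / 2 - π / 4) + x by ring]
    exact (norm_add_le _ _).trans (by linarith)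
  have k2 : ∀ {x : ℂ}, ‖x‖ ≤ 1 / 20 → ‖u / 2 - x - π / 4‖ ≤ 17 / 300 := by
    intro x hx
    rw [show u / 2 - x - π / 4 = (u / 2 - π / 4) - x by ring]
    exact (norm_sub_le _ _).trans (by linarith)
  have t1 := (triX (x := u / 2) (by linarith)).dv
  have t2 := (triX (k1 nc)).dv
  have t3 := (triX (k2 nc)).dv
  have t4 := (triY (k2 nb)).dv
  have t5 := (triY (k1 nb)).dv
  have t6 := (triY (k2 nd)).dv
  have t7 := (triY (k1 nd)).dv
  unfold hvt hvX
  rw [← t1, ← t2, ← t3, ← t4, ← t5, ← t6, ← t7, exp_xA, exp_xA, exp_xA, exp_yA, exp_yA, exp_yA,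
    exp_yA]
  rw [show I * (2 * (u / 2)) = I * u by ring, show I * (2 * (u / 2 + χ / 2)) = I * (u + χ) by ring,
    show I * (2 * (u / 2 - χ / 2)) = I * (u - χ) by ring,
    show -(I * (2 * (u / 2 - ψ / 2))) = I * (ψ - u) by ring,
    show -(I * (2 * (u / 2 + ψ / 2))) = -(I * (u + ψ)) by ring,
    show -(I * (2 * (u / 2 - ψ' / 2))) = I * (ψ' - u) by ring,
    show -(I * (2 * (u / 2 + ψ' / 2))) = -(I * (u + ψ')) by ring]

lemma lob_perm (A B : ℂ) : tv B (I * π - A - B) = tv A B := by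
  have h1 : (I * π - A - B).im = th A B := by
    unfold th
    rw [Complex.sub_im, Complex.sub_im, im_I_mul, pi_re]
  have h2 : th B (I * π - A - B) = A.im := by
    unfold th
    rw [h1]
    unfold th
    ring
  unfold tv
  rw [h2, h1]
  ring

lemma lob_perm' (A B : ℂ) : tv (I * π - A - B) A = tv A B := by
  have h1 : (I * π - A - B).im = th A B := by
    unfold th
    rw [Complex.sub_im, Complex.sub_im, im_I_mul, pi_re]
  have h2 : th (I * π - A - B) A = B.im := by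
    unfold th
    rw [h1]
    unfold th
    ring
  unfold tv
  rw [h2, h1]
  ring

/-- the volume of a half of an octahedron for `χ = 0` -/
noncomputable def tva (a b : ℂ) : ℝ := tv (aA1 a b) (aB1 a b) + tv (aA2 a b 0) (aB2 a b 0)

lemma bv_zero {a b d : ℂ} (h : BX a b d 0) : bv a b d 0 = 2 * (tva a b + tva a d) := by
  have key : ∀ {b : ℂ}, Sm a b 0 → tv (bA1 a b 0) (bB1 a b 0) + tv (bA2 a b 0) (bB2 a b 0) =
      tva a b := by
    intro b hs
    obtain ⟨⟨k1, k2⟩, -⟩ := hs.facts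
    obtain ⟨u1, u2⟩ := hs.ups
    obtain ⟨r1, -, -⟩ := hs.re
    have hpi := Real.pi_gt_three
    have e : ups a b 0 = 2 * log (cos b) + I * a := by
      apply exp_inj'
      · unfold ups
        rw [Complex.exp_log u1, Complex.exp_add, show 2 * log (cos b) = log (cos b) + log (cos b) by
          ring, Complex.exp_add, Complex.exp_log k1]
        unfold uph
        rw [Complex.sin_zero, add_zero]
        ring
      · rw [abs_le] at k2 u2 r1
        rw [Complex.add_im, im_two, im_I_mul, abs_lt]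
        constructor <;> linarith
    have e1 : bA1 a b 0 = aA1 a b := by
      unfold bA1 aA1
      rw [e, add_zero]; ring
    have e2 : bB1 a b 0 = aB1 a b := by
      unfold bB1 aB1
      rw [add_zero, add_zero]; ring
    have e3 : bA2 a b 0 = aA2 a b 0 := by
      unfold bA2 aA2
      rw [e, add_zero, add_zero]; ring
    have e4 : bB2 a b 0 = aB2 a b 0 := by
      unfold bB2 aB2
      rw [e, add_zero]; ring
    rw [e1, e2, e3, e4]
    rfl
  have key2 : tva a (-d) = tva a d := by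
    obtain ⟨t1, t2, t3, t4, -⟩ := top_eq a d 0
    rw [neg_zero, sub_zero, add_zero, mul_zero, sub_zero] at *
    have e1 : aA1 a (-d) = aB2 a d 0 := by
      rw [t1]; unfold aB2; rw [add_zero]; ring
    have e2 : aB1 a (-d) = I * π - aA2 a d 0 - aB2 a d 0 := by
      rw [t2]; unfold aA2 aB2; rw [add_zero, add_zero]; ring
    have e3 : aA2 a (-d) 0 = I * π - aA1 a d - aB1 a d := by
      rw [t3]; unfold aA1 aB1; ring
    have e4 : aB2 a (-d) 0 = aA1 a d := by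
      rw [t4]; unfold aA1; ring
    unfold tva
    rw [e1, e2, e3, e4, lob_perm, lob_perm']
    ring
  have k1 := key h.s1
  have k2 := key (b := -d) (by simpa using h.s2)
  rw [bv_eq, neg_zero]
  change tva a b + tva a (-d) + _ + _ = _
  rw [k1, k2, key2]
  ring

/-- and in terms of `fla` -/
lemma tva_fla {ψ u : ℂ} (h : Sm (u / 2) (ψ / 2) 0) (h0 : ψ ≠ 0) (h1 : ‖ψ‖ ≤ 1 / 10) :
    tva (u / 2) (ψ / 2) = (fla ψ u).vol := by
  have e0 : (fla ψ u).vol = Dv ((1 - YY ψ * WW ψ u) / (1 - YY ψ)) +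
      Dv ((1 - WW ψ u) / (1 - YY ψ * WW ψ u)) := rfl
  obtain ⟨⟨k1, -⟩, -, ⟨k3, -⟩, ⟨k5, -⟩, -, ⟨k7, -⟩⟩ := h.facts
  have eW : WW ψ u = cos (u / 2 - ψ / 2) / cos (u / 2 + ψ / 2) := by
    unfold WW Lg
    rw [show (u - ψ) / 2 = u / 2 - ψ / 2 by ring, show (u + ψ) / 2 = u / 2 + ψ / 2 by ring,
      Complex.exp_log (div_ne_zero k5 k3)]
  have hsin : sin (ψ / 2) ≠ 0 := by
    intro hs
    obtain ⟨k, hk⟩ := Complex.sin_eq_zero_iff.1 hs
    have h2 : ‖ψ / 2‖ = |(k : ℝ)| * π := by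
      rw [hk, norm_mul, Complex.norm_intCast, Complex.norm_real, Real.norm_eq_abs,
        abs_of_pos Real.pi_pos]
    have h3 : ‖ψ / 2‖ ≤ 1 / 20 := by
      rw [norm_div]
      have : ‖(2 : ℂ)‖ = 2 := by norm_num
      rw [this]
      linarith
    have h4 : |(k : ℝ)| < 1 := by
      by_contra hc
      rw [not_lt] at hc
      have := Real.pi_gt_three
      nlinarith
    have h5 : k = 0 := by
      have : |k| < 1 := by exact_mod_cast h4
      rw [abs_lt] at this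
      omega
    rw [h5] at hk
    apply h0
    have : ψ / 2 = 0 := by rw [hk]; simp
    linear_combination 2 * this
  have eY : 1 - YY ψ = 2 * I * sin (ψ / 2) * exp (-(I * (ψ / 2))) := by
    unfold YY
    rw [show -(I * ψ) = -(I * (ψ / 2)) + -(I * (ψ / 2)) by ring, Complex.exp_add, expnI]
    linear_combination (-1 : ℂ) * Complex.sin_sq_add_cos_sq (ψ / 2) +
      sin (ψ / 2) ^ 2 * Complex.I_sq
  have eYW : 1 - YY ψ * WW ψ u = 2 * I * sin (ψ / 2) * cos (ψ / 2) *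
      (exp (I * (u / 2)) * exp (-(I * (ψ / 2)))) / cos (u / 2 + ψ / 2) := by
    rw [eW]
    unfold YY
    rw [eq_div_iff k3, sub_mul, mul_assoc, div_mul_cancel₀ _ k3,
      show -(I * ψ) = -(I * (ψ / 2)) + -(I * (ψ / 2)) by ring, Complex.exp_add, expnI,
      expI, Complex.cos_add, Complex.cos_sub]
    linear_combination (-(cos (u / 2) * cos (ψ / 2) - sin (u / 2) * sin (ψ / 2))) *
      Complex.sin_sq_add_cos_sq (ψ / 2) +
      (-sin (ψ / 2) ^ 2 * (cos (u / 2) * cos (ψ / 2) + sin (u / 2) * sin (ψ / 2)) -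
        2 * sin (ψ / 2) * cos (ψ / 2) * (sin (u / 2) * cos (ψ / 2) - cos (u / 2) * sin (ψ / 2)) +
        2 * sin (ψ / 2) ^ 2 * cos (ψ / 2) * sin (u / 2) * I) * Complex.I_sq
  have eW1 : 1 - WW ψ u = -(2 * sin (u / 2) * sin (ψ / 2)) / cos (u / 2 + ψ / 2) := by
    rw [eW, eq_div_iff k3, sub_mul, div_mul_cancel₀ _ k3, Complex.cos_add, Complex.cos_sub]
    ring
  have eexp : exp (I * (ψ / 2)) * exp (-(I * (ψ / 2))) = 1 := by
    rw [← Complex.exp_add]; simp
  have eexp' : exp (I * (u / 2)) * exp (-(I * (u / 2))) = 1 := by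
    rw [← Complex.exp_add]; simp
  have n1 : exp (-(I * (ψ / 2))) ≠ 0 := Complex.exp_ne_zero _
  have n2 : exp (I * (u / 2)) ≠ 0 := Complex.exp_ne_zero _
  have hI := Complex.I_ne_zero
  have z1 : (1 - YY ψ * WW ψ u) / (1 - YY ψ) = exp (aA1 (u / 2) (ψ / 2)) := by
    have : exp (aA1 (u / 2) (ψ / 2)) = cos (ψ / 2) * exp (I * (u / 2)) / cos (u / 2 + ψ / 2) := by
      unfold aA1
      rw [Complex.exp_sub, Complex.exp_add, Complex.exp_log k1, Complex.exp_log k3]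
    rw [this, eYW, eY]
    field_simp
  have z2 : (1 - WW ψ u) / (1 - YY ψ * WW ψ u) = exp (aA2 (u / 2) (ψ / 2) 0) := by
    have : exp (aA2 (u / 2) (ψ / 2) 0) = I * sin (u / 2) * exp (-(I * (u / 2))) *
        exp (I * (ψ / 2)) / cos (ψ / 2) := by
      unfold aA2
      rw [add_zero, add_zero, show I * (π / 2) + log (sin (u / 2)) - I * (u / 2) + I * (ψ / 2) -
        log (cos (ψ / 2)) = I * (π / 2) + log (sin (u / 2)) + -(I * (u / 2)) + I * (ψ / 2) -
        log (cos (ψ / 2)) by ring,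
        Complex.exp_sub, Complex.exp_add, Complex.exp_add, Complex.exp_add, Complex.exp_log k1,
        Complex.exp_log k7, exp_half]
    rw [this, eYW, eW1, div_div_eq_mul_div, div_mul_cancel₀ _ k3, div_eq_div_iff (by
      have := mul_ne_zero n2 n1
      exact mul_ne_zero (mul_ne_zero (mul_ne_zero (mul_ne_zero two_ne_zero hI) hsin) k1) this) k1]
    linear_combination (-2 * I ^ 2 * sin (ψ / 2) * sin (u / 2) * cos (ψ / 2)) * eexp' +
      (-2 * I ^ 2 * sin (ψ / 2) * sin (u / 2) * cos (ψ / 2) * exp (I * (u / 2)) *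
        exp (-(I * (u / 2)))) * eexp - (2 * sin (ψ / 2) * sin (u / 2) * cos (ψ / 2)) * Complex.I_sq
  rw [e0, z1, z2, (tri_a1 h).dv, (tri_a2 h).dv]
  rfl

/-- the volume of a block -/
theorem blk_vol (hV : S_VLF) {ψ ψ' χ u : ℂ} (h : HX ψ ψ' χ u) :
    bv (u / 2) (ψ / 2) (ψ' / 2) (χ / 2) = hvX ψ ψ' χ u + (eps (ψ / 2) - eps (ψ / 2 + χ / 2)) -
      (eps (ψ' / 2) - eps (ψ' / 2 + χ / 2)) := by
  obtain ⟨e, hB⟩ := h.bx
  have n2 : ‖(2 : ℂ)‖ = 2 := by norm_num
  have hb : ‖ψ / 2‖ ≤ 1 / 20 := by rw [norm_div, n2]; linarith [h.sm]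
  have hd : ‖ψ' / 2‖ ≤ 1 / 20 := by rw [norm_div, n2]; linarith [h.sm']
  have hc : ‖χ / 2‖ < 1 / 20 := by rw [norm_div, n2]; linarith [h.smc]
  have h0 : ‖(0 : ℂ)‖ ≤ 1 / 20 := by simp
  have hp := vol_path hb hd hc
  rw [← e, hvt_eq hB] at hp
  set u0 := acf (Rf (ψ / 2) (ψ' / 2) 0) with hu0
  have hB0 : BX (u0 / 2) (ψ / 2) (ψ' / 2) 0 := bx_acf hb hd h0
  have hHP : HP ψ ψ' u0 := by
    obtain ⟨d1, d2⟩ := den_ne hb hd h0
    refine ⟨h.ne, h.ne', h.sm, h.sm', (acf_near d2).trans (by linarith [Real.pi_gt_three]), ?_⟩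
    rw [hu0, acf_cos d2]
    unfold Rf
    rw [mul_zero, Complex.cos_zero, show 2 * (ψ / 2) = ψ by ring, show 2 * (ψ' / 2) = ψ' by ring]
    congr 1
    ring
  have hv0 := hV ψ ψ' u0 hHP
  have s1 : Sm (u0 / 2) (ψ / 2) 0 := hB0.s1
  have s2 : Sm (u0 / 2) (ψ' / 2) 0 := ⟨hB0.s1.a, hd, h0⟩
  have e1 : bv (u0 / 2) (ψ / 2) (ψ' / 2) 0 = hv ψ ψ' u0 := by
    rw [bv_zero hB0, tva_fla s1 h.ne h.sm, tva_fla s2 h.ne' h.sm', hv0]
  have e2 : hvt (u0 / 2) (ψ / 2) (ψ' / 2) 0 = hv ψ ψ' u0 := by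
    have h1 := hvt_eq (ψ := ψ) (ψ' := ψ') (χ := 0) (u := u0) (by rw [zero_div]; exact hB0)
    rw [zero_div] at h1
    rw [h1]
    unfold hvX hv
    rw [add_zero, sub_zero]
    ring
  rw [e1, e2] at hp
  linarith

end Pool.Agent.Y482.Chi
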