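import Pool.Agent.Y482.Chi.Tri

/-!
# The four quadrilaterals of a block
-/

set_option autoImplicit false

namespace Pool.Agent.Y482.Chi

open Complex (exp log cos sin I)
open scoped Real Topology

/-! ### Elementary estimates -/

lemma exp_sub_le {x : ℂ} (hx : ‖x‖ ≤ 1) : ‖exp x - 1 - x‖ ≤ ‖x‖ ^ 2 :=
  Complex.norm_exp_sub_one_sub_id_le hx

lemma cos_sub_le {x : ℂ} (hx : ‖x‖ ≤ 1) : ‖cos x - 1‖ ≤ ‖x‖ ^ 2 := by
  have h1 : cos x - 1 = ((exp (x * I) - 1 - x * I) + (exp (-x * I) - 1 - (-x * I))) / 2 := by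
    rw [Complex.cos]; ring
  have e1 : ‖x * I‖ = ‖x‖ := by simp
  have e2 : ‖-x * I‖ = ‖x‖ := by simp
  have n1 := exp_sub_le (x := x * I) (by rw [e1]; exact hx)
  have n2 := exp_sub_le (x := -x * I) (by rw [e2]; exact hx)
  rw [e1] at n1
  rw [e2] at n2
  rw [h1, norm_div]
  have : ‖(2 : ℂ)‖ = 2 := by norm_num
  rw [this, div_le_iff₀ (by norm_num)]
  refine (norm_add_le _ _).trans ?_
  linarith

lemma sin_sub_le {x : ℂ} (hx : ‖x‖ ≤ 1) : ‖sin x - x‖ ≤ ‖x‖ ^ 2 := by
  have h1 : sin x - x = ((exp (-x * I) - 1 - (-x * I)) - (exp (x * I) - 1 - x * I)) * I / 2 := by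
    rw [Complex.sin]
    linear_combination (-x) * Complex.I_sq
  have e1 : ‖x * I‖ = ‖x‖ := by simp
  have e2 : ‖-x * I‖ = ‖x‖ := by simp
  have n1 := exp_sub_le (x := x * I) (by rw [e1]; exact hx)
  have n2 := exp_sub_le (x := -x * I) (by rw [e2]; exact hx)
  rw [e1] at n1
  rw [e2] at n2
  rw [h1, norm_div, norm_mul, Complex.norm_I, mul_one]
  have : ‖(2 : ℂ)‖ = 2 := by norm_num
  rw [this, div_le_iff₀ (by norm_num)]
  refine (norm_sub_le _ _).trans ?_
  linarith

lemma sin_le' {x : ℂ} (hx : ‖x‖ ≤ 1) : ‖sin x‖ ≤ ‖x‖ + ‖x‖ ^ 2 := by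
  have := sin_sub_le hx
  calc ‖sin x‖ = ‖x + (sin x - x)‖ := by congr 1; ring
    _ ≤ _ := (norm_add_le _ _).trans (by linarith)

lemma exp_le' {x : ℂ} (hx : ‖x‖ ≤ 1) : ‖exp x - 1‖ ≤ ‖x‖ + ‖x‖ ^ 2 := by
  have := exp_sub_le hx
  calc ‖exp x - 1‖ = ‖x + (exp x - 1 - x)‖ := by congr 1; ring
    _ ≤ _ := (norm_add_le _ _).trans (by linarith)

/-- logarithm of a number of argument near `θ` -/
lemma log_near {z w : ℂ} {r θ : ℝ} (hr : 0 < r) (hz : z = r * exp (θ * I) * (1 + w))
    (hw : ‖w‖ ≤ 1 / 2) (hθ : |θ| ≤ 1) : z ≠ 0 ∧ |(log z).im - θ| ≤ 3 / 2 * ‖w‖ := by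
  have h1 : (1 : ℂ) + w ≠ 0 := by
    intro h
    have : w = -1 := by linear_combination h
    rw [this] at hw
    norm_num at hw
  have h2 : z = exp ((Real.log r : ℂ) + θ * I + log (1 + w)) := by
    rw [Complex.exp_add, Complex.exp_add, Complex.exp_log h1, ← Complex.ofReal_exp,
      Real.exp_log hr, hz]
  have h3 : ‖log (1 + w)‖ ≤ 3 / 2 * ‖w‖ := Complex.norm_log_one_add_half_le_self hw
  have h4 : |(log (1 + w)).im| ≤ 3 / 2 * ‖w‖ := (Complex.abs_im_le_norm _).trans h3
  have h5 : ((Real.log r : ℂ) + θ * I + log (1 + w)).im = θ + (log (1 + w)).im := by simp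
  have hpi := Real.pi_gt_three
  rw [abs_le] at hθ h4
  have h6 : log z = (Real.log r : ℂ) + θ * I + log (1 + w) := by
    rw [h2, Complex.log_exp]
    · rw [h5]; linarith
    · rw [h5]; linarith
  refine ⟨by rw [h2]; exact Complex.exp_ne_zero _, ?_⟩
  rw [h6, h5, abs_le]
  constructor <;> linarith

/-- the cosine of a small number -/
lemma cos_small {x : ℂ} (hx : ‖x‖ ≤ 1 / 10) : cos x ≠ 0 ∧ |(log (cos x)).im| ≤ 1 / 50 := by
  have h1 : ‖cos x - 1‖ ≤ 1 / 100 := (cos_sub_le (hx.trans (by norm_num))).trans (by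
    have := norm_nonneg x
    nlinarith)
  have h2 := log_near (z := cos x) (w := cos x - 1) (r := 1) (θ := 0) one_pos (by simp)
    (h1.trans (by norm_num)) (by simp)
  refine ⟨h2.1, ?_⟩
  have := h2.2
  rw [sub_zero] at this
  linarith

lemma sqrt_two_aux : (0 : ℝ) < √2 / 2 := by positivity

lemma cos_q (w : ℂ) : cos (π / 4 + w) = ((√2 / 2 : ℝ) : ℂ) * (cos w - sin w) := by
  have h1 : cos ((π : ℂ) / 4) = ((√2 / 2 : ℝ) : ℂ) := by
    rw [← Real.cos_pi_div_four]; push_cast; rfl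
  have h2 : sin ((π : ℂ) / 4) = ((√2 / 2 : ℝ) : ℂ) := by
    rw [← Real.sin_pi_div_four]; push_cast; rfl
  rw [Complex.cos_add, h1, h2]
  ring

lemma sin_q (w : ℂ) : sin (π / 4 + w) = ((√2 / 2 : ℝ) : ℂ) * (cos w + sin w) := by
  have h1 : cos ((π : ℂ) / 4) = ((√2 / 2 : ℝ) : ℂ) := by
    rw [← Real.cos_pi_div_four]; push_cast; rfl
  have h2 : sin ((π : ℂ) / 4) = ((√2 / 2 : ℝ) : ℂ) := by
    rw [← Real.sin_pi_div_four]; push_cast; rfl
  rw [Complex.sin_add, h1, h2]
  ring

/-- sine and cosine near `π / 4` -/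
lemma cs_near {x : ℂ} (hx : ‖x - π / 4‖ ≤ 17 / 300) :
    cos x ≠ 0 ∧ sin x ≠ 0 ∧ |(log (cos x)).im| ≤ 1 / 10 ∧ |(log (sin x)).im| ≤ 1 / 10 := by
  set w := x - π / 4 with hw
  have hxw : x = π / 4 + w := by rw [hw]; ring
  have hw1 : ‖w‖ ≤ 1 := hx.trans (by norm_num)
  have n0 := norm_nonneg w
  have h1 := cos_sub_le hw1
  have h2 := sin_le' hw1
  have h3 : ‖w‖ ^ 2 ≤ (17 / 300) ^ 2 := by nlinarith
  have h4 : ‖cos w - sin w - 1‖ ≤ 19 / 300 := by
    have : cos w - sin w - 1 = (cos w - 1) - sin w := by ring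
    rw [this]
    refine (norm_sub_le _ _).trans ?_
    norm_num at h3
    linarith
  have h5 : ‖cos w + sin w - 1‖ ≤ 19 / 300 := by
    have : cos w + sin w - 1 = (cos w - 1) + sin w := by ring
    rw [this]
    refine (norm_add_le _ _).trans ?_
    norm_num at h3
    linarith
  have a1 := log_near (z := cos x) (w := cos w - sin w - 1) (r := √2 / 2) (θ := 0)
    sqrt_two_aux (by rw [hxw, cos_q]; simp) (h4.trans (by norm_num)) (by simp)
  have a2 := log_near (z := sin x) (w := cos w + sin w - 1) (r := √2 / 2) (θ := 0)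
    sqrt_two_aux (by rw [hxw, sin_q]; simp) (h5.trans (by norm_num)) (by simp)
  rw [sub_zero] at a1 a2
  exact ⟨a1.1, a2.1, by linarith [a1.2], by linarith [a2.2]⟩

/-! ### The quadrilaterals -/

/-- the domain: half of `u`, `ψ`, `χ` -/
structure Sm (a b c : ℂ) : Prop where
  a : ‖a - π / 4‖ ≤ 1 / 150
  b : ‖b‖ ≤ 1 / 20
  c : ‖c‖ ≤ 1 / 20

/-- half of `U` -/
noncomputable def uph (a b c : ℂ) : ℂ := cos b ^ 2 * exp (I * (a + c)) + sin a * sin c

noncomputable def ups (a b c : ℂ) : ℂ := log (uph a b c)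

noncomputable def aA1 (a b : ℂ) : ℂ := log (cos b) + I * a - log (cos (a + b))
noncomputable def aB1 (a b : ℂ) : ℂ := I * (π / 2) + log (cos (a + b)) + I * b - log (sin a)
noncomputable def aA2 (a b c : ℂ) : ℂ :=
  I * (π / 2) + log (sin (a + c)) - I * a + I * b - log (cos (b + c))
noncomputable def aB2 (a b c : ℂ) : ℂ :=
  log (cos (b + c)) + I * a + I * c - log (cos (a - b))
noncomputable def bA1 (a b c : ℂ) : ℂ := ups a b c - log (cos (a + b)) - log (cos (b + c))
noncomputable def bB1 (a b c : ℂ) : ℂ :=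
  I * (π / 2) + I * b + log (cos (a + b)) + log (cos (b + c)) - log (cos b) - log (sin (a + c))
noncomputable def bA2 (a b c : ℂ) : ℂ :=
  I * (π / 2) + log (sin a) + I * b + log (cos (b + c)) - ups a b c
noncomputable def bB2 (a b c : ℂ) : ℂ :=
  ups a b c - I * c - log (cos (a - b)) - log (cos b)

lemma exp_half : exp (I * (π / 2)) = I := by
  rw [show I * ((π : ℂ) / 2) = π / 2 * I by ring, Complex.exp_pi_div_two_mul_I]

lemma expI (x : ℂ) : exp (I * x) = cos x + sin x * I := by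
  rw [mul_comm, Complex.exp_mul_I]

lemma expnI (x : ℂ) : exp (-(I * x)) = cos x - sin x * I := by
  rw [show -(I * x) = -x * I by ring, Complex.exp_mul_I, Complex.cos_neg, Complex.sin_neg]
  ring

lemma exp_nhalf : exp (-(I * (π / 2))) = -I := by
  rw [expnI, Complex.cos_pi_div_two, Complex.sin_pi_div_two]; ring

/-- the basic facts -/
lemma Sm.facts {a b c : ℂ} (h : Sm a b c) :
    (cos b ≠ 0 ∧ |(log (cos b)).im| ≤ 1 / 50) ∧ (cos (b + c) ≠ 0 ∧ |(log (cos (b + c))).im| ≤ 1 / 50) ∧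
    (cos (a + b) ≠ 0 ∧ |(log (cos (a + b))).im| ≤ 1 / 10) ∧
    (cos (a - b) ≠ 0 ∧ |(log (cos (a - b))).im| ≤ 1 / 10) ∧
    (sin (a + c) ≠ 0 ∧ |(log (sin (a + c))).im| ≤ 1 / 10) ∧
    (sin a ≠ 0 ∧ |(log (sin a)).im| ≤ 1 / 10) := by
  have ha := h.a
  have hb := h.b
  have hc := h.c
  have h1 := cos_small (x := b) (hb.trans (by norm_num))
  have h2 := cos_small (x := b + c) ((norm_add_le _ _).trans (by linarith))
  have h3 := cs_near (x := a + b) (by
    rw [show a + b - π / 4 = (a - π / 4) + b by ring]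
    exact (norm_add_le _ _).trans (by linarith))
  have h4 := cs_near (x := a - b) (by
    rw [show a - b - π / 4 = (a - π / 4) - b by ring]
    exact (norm_sub_le _ _).trans (by linarith))
  have h5 := cs_near (x := a + c) (by
    rw [show a + c - π / 4 = (a - π / 4) + c by ring]
    exact (norm_add_le _ _).trans (by linarith))
  have h6 := cs_near (x := a) (by linarith)
  exact ⟨h1, h2, ⟨h3.1, h3.2.2.1⟩, ⟨h4.1, h4.2.2.1⟩, ⟨h5.2.1, h5.2.2.2⟩, ⟨h6.2.1, h6.2.2.2⟩⟩

/-- the number `U / 2` -/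
lemma Sm.ups {a b c : ℂ} (h : Sm a b c) :
    uph a b c ≠ 0 ∧ |(ups a b c).im - π / 4| ≤ 1 / 5 := by
  have ha := h.a
  have hb := h.b
  have hc := h.c
  set w := a - π / 4 + c with hw
  have hwn : ‖w‖ ≤ 17 / 300 := (norm_add_le _ _).trans (by linarith)
  have n0 := norm_nonneg w
  have n1 := norm_nonneg b
  have n2 := norm_nonneg c
  have n3 := norm_nonneg (a - π / 4)
  have e1 : ‖exp (I * w) - 1‖ ≤ 18 / 300 := by
    have h1 : ‖I * w‖ = ‖w‖ := by simp
    have := exp_le' (x := I * w) (by rw [h1]; linarith)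
    rw [h1] at this
    nlinarith
  have e2 : ‖cos b ^ 2 - 1‖ ≤ 1 / 100 := by
    have h1 : cos b ^ 2 - 1 = -(sin b * sin b) := by
      linear_combination Complex.sin_sq_add_cos_sq b
    have h2 := sin_le' (x := b) (by linarith)
    have h3 : ‖sin b‖ ≤ 1 / 10 := by nlinarith
    rw [h1, norm_neg, norm_mul]
    have := norm_nonneg (sin b)
    nlinarith
  have e3 : ‖sin a‖ ≤ 4 / 5 := by
    have h1 : a = π / 4 + (a - π / 4) := by ring
    rw [h1, sin_q, norm_mul, Complex.norm_real, Real.norm_eq_abs, abs_of_pos sqrt_two_aux]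
    have h2 := cos_sub_le (x := a - π / 4) (by linarith)
    have h3 := sin_le' (x := a - π / 4) (by linarith)
    have h4 : ‖cos (a - π / 4) + sin (a - π / 4)‖ ≤ 51 / 50 := by
      have : cos (a - π / 4) + sin (a - π / 4) = 1 + (cos (a - π / 4) - 1) + sin (a - π / 4) := by
        ring
      rw [this]
      refine (norm_add_le _ _).trans ?_
      have := norm_add_le (1 : ℂ) (cos (a - π / 4) - 1)
      rw [norm_one] at this
      nlinarith
    have h5 : √2 ≤ 3 / 2 := by
      rw [Real.sqrt_le_left (by norm_num)]; norm_num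
    have h6 := norm_nonneg (cos (a - π / 4) + sin (a - π / 4))
    nlinarith [Real.sqrt_nonneg 2]
  have e4 : ‖sin c‖ ≤ 53 / 1000 := by
    have := sin_le' (x := c) (by linarith)
    nlinarith
  set v : ℂ := cos b ^ 2 * exp (I * w) - 1 + exp (-(I * (π / 4))) * (sin a * sin c) with hv
  have hvn : ‖v‖ ≤ 1 / 8 := by
    have h1 : v = (cos b ^ 2 - 1) * (exp (I * w) - 1) + (cos b ^ 2 - 1) + (exp (I * w) - 1) +
        exp (-(I * (π / 4))) * (sin a * sin c) := by rw [hv]; ring
    have h2 : ‖exp (-(I * ((π : ℂ) / 4)))‖ = 1 := by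
      rw [show -(I * ((π : ℂ) / 4)) = ((-(π / 4) : ℝ) : ℂ) * I by push_cast; ring,
        Complex.norm_exp_ofReal_mul_I]
    rw [h1]
    have m1 := norm_add_le ((cos b ^ 2 - 1) * (exp (I * w) - 1) + (cos b ^ 2 - 1) +
      (exp (I * w) - 1)) (exp (-(I * (π / 4))) * (sin a * sin c))
    have m2 := norm_add_le ((cos b ^ 2 - 1) * (exp (I * w) - 1) + (cos b ^ 2 - 1))
      (exp (I * w) - 1)
    have m3 := norm_add_le ((cos b ^ 2 - 1) * (exp (I * w) - 1)) (cos b ^ 2 - 1)
    rw [norm_mul] at m3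
    rw [norm_mul (exp (-(I * (π / 4)))), h2, one_mul, norm_mul] at m1
    have k1 := norm_nonneg (exp (I * w) - 1)
    have k2 := norm_nonneg (cos b ^ 2 - 1)
    have k3 := norm_nonneg (sin a)
    have k4 := norm_nonneg (sin c)
    have k5 : ‖cos b ^ 2 - 1‖ * ‖exp (I * w) - 1‖ ≤ 1 / 100 * (18 / 300) := by gcongr
    have k6 : ‖sin a‖ * ‖sin c‖ ≤ 4 / 5 * (53 / 1000) := by gcongr
    linarith
  have hz : uph a b c = ((1 : ℝ) : ℂ) * exp ((π / 4 : ℝ) * I) * (1 + v) := by
    have h1 : exp ((π / 4 : ℝ) * I) * exp (-(I * (π / 4))) = 1 := by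
      rw [← Complex.exp_add]
      have : ((π / 4 : ℝ) : ℂ) * I + -(I * (π / 4)) = 0 := by push_cast; ring
      rw [this, Complex.exp_zero]
    have h2 : exp ((π / 4 : ℝ) * I) * exp (I * w) = exp (I * (a + c)) := by
      rw [← Complex.exp_add]
      congr 1
      rw [hw]; push_cast; ring
    unfold uph
    rw [hv]
    push_cast at h1 h2 ⊢
    linear_combination (-cos b ^ 2) * h2 - (sin a * sin c) * h1
  have hpi := Real.pi_lt_d2
  have hpi0 := Real.pi_pos
  have := log_near (z := uph a b c) (w := v) (r := 1) (θ := π / 4) one_pos hz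
    (hvn.trans (by norm_num)) (by rw [abs_of_pos (by positivity)]; linarith)
  refine ⟨this.1, ?_⟩
  unfold Chi.ups
  linarith [this.2]

lemma im_I_mul (x : ℂ) : (I * x).im = x.re := by simp

lemma re_I_mul (x : ℂ) : (I * x).re = -x.im := by simp

lemma half_re : ((π : ℂ) / 2).re = π / 2 := by
  have : ((π : ℂ) / 2) = ((π / 2 : ℝ) : ℂ) := by push_cast; rfl
  rw [this, Complex.ofReal_re]

lemma half_im : ((π : ℂ) / 2).im = 0 := by
  have : ((π : ℂ) / 2) = ((π / 2 : ℝ) : ℂ) := by push_cast; rfl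
  rw [this, Complex.ofReal_im]

/-- real parts of small numbers -/
lemma Sm.re {a b c : ℂ} (h : Sm a b c) :
    |a.re - π / 4| ≤ 1 / 150 ∧ |b.re| ≤ 1 / 20 ∧ |c.re| ≤ 1 / 20 := by
  have h1 := (Complex.abs_re_le_norm _).trans h.a
  have h2 : (a - π / 4).re = a.re - π / 4 := by
    have : ((π : ℂ) / 4) = ((π / 4 : ℝ) : ℂ) := by push_cast; rfl
    rw [this, Complex.sub_re, Complex.ofReal_re]
  rw [h2] at h1
  exact ⟨h1, (Complex.abs_re_le_norm _).trans h.b, (Complex.abs_re_le_norm _).trans h.c⟩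

theorem tri_a1 {a b c : ℂ} (h : Sm a b c) : Tri (aA1 a b) (aB1 a b) := by
  obtain ⟨⟨k1, k2⟩, -, ⟨k3, k4⟩, -, -, ⟨k5, k6⟩⟩ := h.facts
  obtain ⟨r1, r2, r3⟩ := h.re
  rw [abs_le] at k2 k4 k6 r1 r2 r3
  have hpi := Real.pi_gt_three
  refine ⟨?_, ?_, ?_, ?_⟩
  · have e1 : exp (aA1 a b) = cos b * (cos a + sin a * I) / cos (a + b) := by
      unfold aA1
      rw [Complex.exp_sub, Complex.exp_add, Complex.exp_log k1, Complex.exp_log k3, expI]
    have e2 : exp (-aB1 a b) = -I * (cos b - sin b * I) * sin a / cos (a + b) := by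
      unfold aB1
      rw [show -(I * (π / 2) + log (cos (a + b)) + I * b - log (sin a)) =
        -(I * (π / 2)) + -(I * b) + log (sin a) - log (cos (a + b)) by ring,
        Complex.exp_sub, Complex.exp_add, Complex.exp_add, Complex.exp_log k5, Complex.exp_log k3,
        exp_nhalf, expnI]
    rw [e1, e2, ← add_div, div_eq_one_iff_eq k3, Complex.cos_add]
    linear_combination (sin a * sin b) * Complex.I_sq
  · unfold aA1
    simp only [Complex.sub_im, Complex.add_im, im_I_mul, half_re]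
    linarith
  · unfold aB1
    simp only [Complex.sub_im, Complex.add_im, im_I_mul, half_re]
    linarith
  · unfold aA1 aB1
    simp only [Complex.sub_im, Complex.add_im, im_I_mul, half_re]
    linarith

theorem tri_a2 {a b c : ℂ} (h : Sm a b c) : Tri (aA2 a b c) (aB2 a b c) := by
  obtain ⟨-, ⟨k1, k2⟩, -, ⟨k3, k4⟩, ⟨k5, k6⟩, -⟩ := h.facts
  obtain ⟨r1, r2, r3⟩ := h.re
  rw [abs_le] at k2 k4 k6 r1 r2 r3
  have hpi := Real.pi_gt_three
  refine ⟨?_, ?_, ?_, ?_⟩
  · have e1 : exp (aA2 a b c) = I * sin (a + c) * (cos (a - b) - sin (a - b) * I) / cos (b + c) := by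
      unfold aA2
      rw [show I * (π / 2) + log (sin (a + c)) - I * a + I * b - log (cos (b + c)) =
        I * (π / 2) + log (sin (a + c)) + -(I * (a - b)) - log (cos (b + c)) by ring,
        Complex.exp_sub, Complex.exp_add, Complex.exp_add, Complex.exp_log k1, Complex.exp_log k5,
        exp_half, expnI]
    have e2 : exp (-aB2 a b c) = (cos (a + c) - sin (a + c) * I) * cos (a - b) / cos (b + c) := by
      unfold aB2
      rw [show -(log (cos (b + c)) + I * a + I * c - log (cos (a - b))) =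
        -(I * (a + c)) + log (cos (a - b)) - log (cos (b + c)) by ring,
        Complex.exp_sub, Complex.exp_add, Complex.exp_log k1, Complex.exp_log k3, expnI]
    rw [e1, e2, ← add_div, div_eq_one_iff_eq k1, show b + c = (a + c) - (a - b) by ring,
      Complex.cos_sub (a + c) (a - b)]
    linear_combination (-sin (a + c) * sin (a - b)) * Complex.I_sq
  · unfold aA2
    simp only [Complex.sub_im, Complex.add_im, im_I_mul, half_re]
    linarith
  · unfold aB2
    simp only [Complex.sub_im, Complex.add_im, im_I_mul, half_re]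
    linarith
  · unfold aA2 aB2
    simp only [Complex.sub_im, Complex.add_im, im_I_mul, half_re]
    linarith

theorem tri_b1 {a b c : ℂ} (h : Sm a b c) : Tri (bA1 a b c) (bB1 a b c) := by
  obtain ⟨⟨k1, k2⟩, ⟨k3, k4⟩, ⟨k5, k6⟩, -, ⟨k7, k8⟩, -⟩ := h.facts
  obtain ⟨u1, u2⟩ := h.ups
  obtain ⟨r1, r2, r3⟩ := h.re
  rw [abs_le] at k2 k4 k6 k8 r1 r2 r3 u2
  have hpi := Real.pi_gt_three
  refine ⟨?_, ?_, ?_, ?_⟩
  · have e1 : exp (bA1 a b c) = uph a b c / (cos (a + b) * cos (b + c)) := by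
      unfold bA1 ups
      rw [Complex.exp_sub, Complex.exp_sub, Complex.exp_log k3, Complex.exp_log k5,
        Complex.exp_log u1, div_div]
    have e2 : exp (-bB1 a b c) = -I * (cos b - sin b * I) * cos b * sin (a + c) /
        (cos (a + b) * cos (b + c)) := by
      unfold bB1
      rw [show -(I * (π / 2) + I * b + log (cos (a + b)) + log (cos (b + c)) - log (cos b) -
        log (sin (a + c))) = -(I * (π / 2)) + -(I * b) + log (cos b) + log (sin (a + c)) -
        log (cos (a + b)) - log (cos (b + c)) by ring,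
        Complex.exp_sub, Complex.exp_sub, Complex.exp_add, Complex.exp_add, Complex.exp_add,
        Complex.exp_log k1, Complex.exp_log k3, Complex.exp_log k5, Complex.exp_log k7,
        exp_nhalf, expnI, div_div]
    rw [e1, e2, ← add_div, div_eq_one_iff_eq (mul_ne_zero k5 k3)]
    unfold uph
    rw [expI, Complex.cos_add a b, Complex.cos_add b c, Complex.cos_add a c, Complex.sin_add a c]
    linear_combination (cos b * sin b * (sin a * cos c + cos a * sin c)) * Complex.I_sq -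
      (sin a * sin c) * Complex.sin_sq_add_cos_sq b
  · unfold bA1
    simp only [Complex.sub_im, Complex.add_im, im_I_mul, half_re]
    linarith
  · unfold bB1
    simp only [Complex.sub_im, Complex.add_im, im_I_mul, half_re]
    linarith
  · unfold bA1 bB1
    simp only [Complex.sub_im, Complex.add_im, im_I_mul, half_re]
    linarith

theorem tri_b2 {a b c : ℂ} (h : Sm a b c) : Tri (bA2 a b c) (bB2 a b c) := by
  obtain ⟨⟨k1, k2⟩, ⟨k3, k4⟩, -, ⟨k5, k6⟩, -, ⟨k7, k8⟩⟩ := h.facts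
  obtain ⟨u1, u2⟩ := h.ups
  obtain ⟨r1, r2, r3⟩ := h.re
  rw [abs_le] at k2 k4 k6 k8 r1 r2 r3 u2
  have hpi := Real.pi_gt_three
  refine ⟨?_, ?_, ?_, ?_⟩
  · have e1 : exp (bA2 a b c) = I * sin a * (cos b + sin b * I) * cos (b + c) / uph a b c := by
      unfold bA2 ups
      rw [Complex.exp_sub, Complex.exp_add, Complex.exp_add, Complex.exp_add, Complex.exp_log k3,
        Complex.exp_log k7, Complex.exp_log u1, exp_half, expI]
    have e2 : exp (-bB2 a b c) = (cos c + sin c * I) * cos (a - b) * cos b / uph a b c := by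
      unfold bB2 ups
      rw [show -(log (uph a b c) - I * c - log (cos (a - b)) - log (cos b)) =
        I * c + log (cos (a - b)) + log (cos b) - log (uph a b c) by ring,
        Complex.exp_sub, Complex.exp_add, Complex.exp_add, Complex.exp_log k1, Complex.exp_log k5,
        Complex.exp_log u1, expI]
    rw [e1, e2, ← add_div, div_eq_one_iff_eq u1]
    unfold uph
    rw [expI, Complex.cos_sub a b, Complex.cos_add b c, Complex.cos_add a c, Complex.sin_add a c]
    linear_combination (sin a * sin b * (cos b * cos c - sin b * sin c)) * Complex.I_sq +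
      (sin a * sin c) * Complex.sin_sq_add_cos_sq b
  · unfold bA2
    simp only [Complex.sub_im, Complex.add_im, im_I_mul, half_re]
    linarith
  · unfold bB2
    simp only [Complex.sub_im, Complex.add_im, im_I_mul, half_re]
    linarith
  · unfold bA2 bB2
    simp only [Complex.sub_im, Complex.add_im, im_I_mul, half_re]
    linarith

end Pool.Agent.Y482.Chi
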