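import Pool.Agent.Y482.Chi.Ang
import Pool.Agent.Y482.Chi.Alg
import Pool.Agent.Y482.Chi.Defs
import Pool.Agent.W737.AR.Gmt

/-!
# The derivative of the volume of a block
-/

set_option autoImplicit false

namespace Pool.Agent.Y482.Chi

open Finset
open Complex (exp log cos sin I)
open Pool.Agent.W711.HT
open Pool.Agent.W719.AR (Fl)
open Pool.Agent.W709.VC (S_TET)
open Pool.Agent.W737.AR (Lf vol_le)
open scoped Real Topology

lemma Lf_flE {A B A' B' : ℂ} (h : Tri A B) (h' : Tri A' B') {y : Fl} (hy : y.Pos) :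
    Lf (flE A B A' B') y = -B.re * (y.a - (flE A B A' B').a) + A.re * (y.b - (flE A B A' B').b) -
      B'.re * (y.a' - (flE A B A' B').a') + A'.re * (y.b' - (flE A B A' B').b') := by
  obtain ⟨-, -, -, k4, -, -, -, k8⟩ := hy
  have e1 := h.logA
  have e2 := h.logB
  have e3 := h'.logA
  have e4 := h'.logB
  unfold Lf flE
  simp only
  have c1 : y.c - th A B = -(y.a - A.im) - (y.b - B.im) := by unfold th; linarith
  have c2 : y.c' - th A' B' = -(y.a' - A'.im) - (y.b' - B'.im) := by unfold th; linarith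
  rw [c1, c2]
  linear_combination (y.a - A.im) * e1 + (y.b - B.im) * e2 + (y.a' - A'.im) * e3 +
    (y.b' - B'.im) * e4

noncomputable def lgr (a b : ℂ) : ℂ := log (cos (a - b)) - log (cos (a + b))

noncomputable def lcr (a c : ℂ) : ℂ := log (sin (a + c)) - log (sin (a - c))

/-- the terms at the lower vertex -/
noncomputable def TB (a b c : ℂ) (K2 : ℝ) (f g F G : Fl) : ℝ :=
  (log (cos b)).re * ((f.c + g.a + F.c + G.b') + (f.a + f.a' + F.b) + (f.b + F.a + F.a') -
    (3 * π + 2 * b.re)) +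
  K2 / 2 * ((f.c + f.b' + F.c') + (f.a' + g.b' + F.a' + G.a) - 2 * π) +
  (log (cos (b + c))).re * ((f.c' + F.c + F.b') - (π - 2 * b.re - 2 * c.re)) +
  (lgr a b).re / 2 * ((f.a + f.a' + F.b) + (f.b + F.a + F.a') - (2 * π + 4 * b.re)) +
  b.im * ((f.a + f.a' + f.c') + (F.a + F.a' + F.c') - 2 * π -
    (2 * (lgr a b).im + 2 * (log (cos b)).im - 2 * (log (cos (b + c))).im))

/-- the terms at the upper vertex -/
noncomputable def TU (a d c : ℂ) (K2 : ℝ) (f g F G : Fl) : ℝ :=
  (log (cos d)).re * ((f.a + g.c + F.b' + G.c) + (g.a + g.a' + G.b) + (g.b + G.a + G.a') -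
    (3 * π - 2 * d.re)) +
  K2 / 2 * ((g.c + g.b' + G.c') + (f.b' + g.a' + F.a + G.a') - 2 * π) +
  (log (cos (d + c))).re * ((g.c' + G.c + G.b') - (π + 2 * d.re + 2 * c.re)) -
  (lgr a d).re / 2 * ((g.a + g.a' + G.b) + (g.b + G.a + G.a') - (2 * π - 4 * d.re)) -
  d.im * ((g.a + g.a' + g.c') + (G.a + G.a' + G.c') - 2 * π -
    (-2 * (lgr a d).im + 2 * (log (cos d)).im - 2 * (log (cos (d + c))).im))

/-- the terms at the axis -/
noncomputable def TX (a b d c : ℂ) (f g F G : Fl) : ℝ :=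
  (lcr a c).re / 2 * (f.b' + g.a' + g.c' + G.c + G.b' + F.a + G.a' - (2 * π + 4 * c.re)) -
  c.im * ((f.c' + f.b' + g.a') + (F.a' + G.a + G.c + G.b') - 2 * π -
    (-2 * (lcr a c).im + 2 * (log (cos (b + c))).im - 2 * (log (cos (d + c))).im))

/-- the crossing angles -/
lemma blkCr {a b d c : ℂ} (h : BX a b d c) :
    ((flA a b c).a + (flA a b c).a' + (flA a b c).c') +
      ((flB a b c).a + (flB a b c).a' + (flB a b c).c') - 2 * π =
      2 * (lgr a b).im + 2 * (log (cos b)).im - 2 * (log (cos (b + c))).im ∧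
    ((flA a (-d) (-c)).a + (flA a (-d) (-c)).a' + (flA a (-d) (-c)).c') +
      ((flB a (-d) (-c)).a + (flB a (-d) (-c)).a' + (flB a (-d) (-c)).c') - 2 * π =
      -2 * (lgr a d).im + 2 * (log (cos d)).im - 2 * (log (cos (d + c))).im ∧
    ((flA a b c).c' + (flA a b c).b' + (flA a (-d) (-c)).a') + ((flB a b c).a' +
      (flB a (-d) (-c)).a + (flB a (-d) (-c)).c + (flB a (-d) (-c)).b') - 2 * π =
      -2 * (lcr a c).im + 2 * (log (cos (b + c))).im - 2 * (log (cos (d + c))).im := by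
  obtain ⟨h1, h2⟩ := h.im
  have e1 : cos (-d - c) = cos (d + c) := by rw [← Complex.cos_neg]; congr 1; ring
  refine ⟨?_, ?_, ?_⟩ <;>
  · simp only [flA, flB, flE, th, aA1, aB1, aA2, aB2, bA1, bB1, bA2, bB2, Complex.cos_neg,
      ← sub_eq_add_neg, sub_neg_eq_add, ← neg_add', Complex.add_im, Complex.sub_im, im_I_mul,
      half_re, Complex.neg_re, lgr, lcr, e1]
    linarith

theorem blk_lf {a b d c : ℂ} (h : BX a b d c) {f g F G : Fl} (pf : f.Pos) (pg : g.Pos)
    (pF : F.Pos) (pG : G.Pos) (d1 : f.b + f.c' + (g.b + g.c') = 2 * π)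
    (d2 : F.b + F.c' + (G.b + G.c') = 2 * π) :
    Lf (flA a b c) f + Lf (flA a (-d) (-c)) g + Lf (flB a b c) F + Lf (flB a (-d) (-c)) G =
      TB a b c ((log (cos (b + c))).re + (log (cos (b - c))).re) f g F G +
      TU a d c ((log (cos (d + c))).re + (log (cos (d - c))).re) f g F G +
      TX a b d c f g F G := by
  have q := blkAng h
  have i1 := h.im.1
  have i2 := h.im.2
  have e1 := congrArg Complex.re h.r1
  have e2 := congrArg Complex.re h.r2
  have e3 := congrArg Complex.re h.r3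
  have e4 := congrArg Complex.re h.r4
  simp only [Complex.add_re, Complex.sub_re, re_two, re_I_mul] at e1 e2 e3 e4
  have ecc : cos (-d - c) = cos (d + c) := by rw [← Complex.cos_neg]; congr 1; ring
  have key := blk_alg
    (f.a - (flA a b c).a) (f.b - (flA a b c).b) (f.c - (flA a b c).c)
    (f.a' - (flA a b c).a') (f.b' - (flA a b c).b') (f.c' - (flA a b c).c')
    (g.a - (flA a (-d) (-c)).a) (g.b - (flA a (-d) (-c)).b) (g.c - (flA a (-d) (-c)).c)
    (g.a' - (flA a (-d) (-c)).a') (g.b' - (flA a (-d) (-c)).b') (g.c' - (flA a (-d) (-c)).c')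
    (F.a - (flB a b c).a) (F.b - (flB a b c).b) (F.c - (flB a b c).c)
    (F.a' - (flB a b c).a') (F.b' - (flB a b c).b') (F.c' - (flB a b c).c')
    (G.a - (flB a (-d) (-c)).a) (G.b - (flB a (-d) (-c)).b) (G.c - (flB a (-d) (-c)).c)
    (G.a' - (flB a (-d) (-c)).a') (G.b' - (flB a (-d) (-c)).b') (G.c' - (flB a (-d) (-c)).c')
    (log (sin a)).re (log (sin (a + c))).re (log (sin (a - c))).re
    (log (cos (a + b))).re (log (cos (a - b))).re (log (cos (a + d))).re (log (cos (a - d))).re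
    (log (cos b)).re (log (cos d)).re (log (cos (b + c))).re (log (cos (b - c))).re
    (log (cos (d + c))).re (log (cos (d - c))).re (ups a b c).re (ups a (-d) (-c)).re
    a.im b.im d.im c.im
    (by have := pf.2.2.2.1; simp only [flA, flE, th]; linarith)
    (by have := pf.2.2.2.2.2.2.2; simp only [flA, flE, th]; linarith)
    (by have := pg.2.2.2.1; simp only [flA, flE, th]; linarith)
    (by have := pg.2.2.2.2.2.2.2; simp only [flA, flE, th]; linarith)
    (by have := pF.2.2.2.1; simp only [flB, flE, th]; linarith)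
    (by have := pF.2.2.2.2.2.2.2; simp only [flB, flE, th]; linarith)
    (by have := pG.2.2.2.1; simp only [flB, flE, th]; linarith)
    (by have := pG.2.2.2.2.2.2.2; simp only [flB, flE, th]; linarith)
    (by linarith [q.dA]) (by linarith [q.dB]) (by linarith) (by linarith) (by linarith)
    (by linarith)
  have L1 : Lf (flA a b c) f = -(aB1 a b).re * (f.a - (flA a b c).a) +
      (aA1 a b).re * (f.b - (flA a b c).b) - (aB2 a b c).re * (f.a' - (flA a b c).a') +
      (aA2 a b c).re * (f.b' - (flA a b c).b') := Lf_flE (tri_a1 h.s1) (tri_a2 h.s1) pf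
  have L2 : Lf (flA a (-d) (-c)) g = -(aB1 a (-d)).re * (g.a - (flA a (-d) (-c)).a) +
      (aA1 a (-d)).re * (g.b - (flA a (-d) (-c)).b) -
      (aB2 a (-d) (-c)).re * (g.a' - (flA a (-d) (-c)).a') +
      (aA2 a (-d) (-c)).re * (g.b' - (flA a (-d) (-c)).b') :=
    Lf_flE (tri_a1 h.s2) (tri_a2 h.s2) pg
  have L3 : Lf (flB a b c) F = -(bB1 a b c).re * (F.a - (flB a b c).a) +
      (bA1 a b c).re * (F.b - (flB a b c).b) - (bB2 a b c).re * (F.a' - (flB a b c).a') +
      (bA2 a b c).re * (F.b' - (flB a b c).b') := Lf_flE (tri_b1 h.s1) (tri_b2 h.s1) pF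
  have L4 : Lf (flB a (-d) (-c)) G = -(bB1 a (-d) (-c)).re * (G.a - (flB a (-d) (-c)).a) +
      (bA1 a (-d) (-c)).re * (G.b - (flB a (-d) (-c)).b) -
      (bB2 a (-d) (-c)).re * (G.a' - (flB a (-d) (-c)).a') +
      (bA2 a (-d) (-c)).re * (G.b' - (flB a (-d) (-c)).b') :=
    Lf_flE (tri_b1 h.s2) (tri_b2 h.s2) pG
  obtain ⟨c1, c2, c3⟩ := blkCr h
  rw [L1, L2, L3, L4]
  unfold TB TU TX
  have g1 : (lgr a b).re = (log (cos (a - b))).re - (log (cos (a + b))).re := by
    simp [lgr]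
  have g2 : (lgr a d).re = (log (cos (a - d))).re - (log (cos (a + d))).re := by
    simp [lgr]
  have g3 : (lcr a c).re = (log (sin (a + c))).re - (log (sin (a - c))).re := by
    simp [lcr]
  rw [g1, g2, g3]
  simp only [aA1, aB1, aA2, aB2, bA1, bB1, bA2, bB2, Complex.cos_neg, ← sub_eq_add_neg,
    sub_neg_eq_add, ← neg_add', Complex.add_re, Complex.sub_re, re_I_mul, half_im, Complex.neg_im,
    ecc]
  linear_combination key - (log (cos b)).re * (q.BS + q.Pb + q.Qb) -
    ((log (cos (b + c))).re + (log (cos (b - c))).re) / 2 * (q.CRb + q.BA) -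
    (log (cos (b + c))).re * q.CAb -
    ((log (cos (a - b))).re - (log (cos (a + b))).re) / 2 * (q.Pb + q.Qb) - b.im * c1 -
    (log (cos d)).re * (q.TS + q.Pt + q.Qt) -
    ((log (cos (d + c))).re + (log (cos (d - c))).re) / 2 * (q.CRt + q.TA) -
    (log (cos (d + c))).re * q.CAt +
    ((log (cos (a - d))).re - (log (cos (a + d))).re) / 2 * (q.Pt + q.Qt) + d.im * c2 -
    ((log (sin (a + c))).re - (log (sin (a - c))).re) / 2 * (q.TA + q.CAt) + c.im * c3

end Pool.Agent.Y482.Chi
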