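import Pool.Agent.Y482.Chi.Base
import Pool.Agent.Y482.Chi.Max
import Pool.Agent.Y482.GeoR

/-!
# Closed 3-braids with many full twists: the critical value is the maximal volume
-/

set_option autoImplicit false

namespace Pool.Agent.Y482.Chi

open Finset
open Complex (exp log cos sin I)
open Pool.Agent.W711.HT
open Pool.Agent.W719.AR (Fl S_VLF)
open Pool.Agent.W709.VC (Dv S_TET)
open Pool.Agent.W737.AR (Lf vol_le)
open Pool.Agent.Y482 (sum_succ_mod)
open scoped Real Topology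

lemma log_div_near {x y : ℂ} (hx : x ≠ 0) (hy : y ≠ 0) (h1 : |(log x).im| ≤ 1 / 10)
    (h2 : |(log y).im| ≤ 1 / 10) : log (x / y) = log x - log y := by
  have e : x / y = exp (log x - log y) := by
    rw [Complex.exp_sub, Complex.exp_log hx, Complex.exp_log hy]
  have hpi := Real.pi_gt_three
  rw [abs_le] at h1 h2
  rw [e, Complex.log_exp]
  · rw [Complex.sub_im]; linarith
  · rw [Complex.sub_im]; linarith

lemma BX.lg1 {ψ ψ' χ u : ℂ} (h : BX (u / 2) (ψ / 2) (ψ' / 2) (χ / 2)) :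
    Lg u ψ = lgr (u / 2) (ψ / 2) ∧ Lg u ψ' = lgr (u / 2) (ψ' / 2) ∧ Lc u χ = lcr (u / 2) (χ / 2) := by
  obtain ⟨-, -, -, -, -, -, ⟨p1, q1⟩, ⟨p2, q2⟩, ⟨p3, q3⟩, ⟨p4, q4⟩, ⟨p5, q5⟩, ⟨p6, q6⟩, -⟩ := h.facts
  unfold Lg Lc lgr lcr
  rw [show (u - ψ) / 2 = u / 2 - ψ / 2 by ring, show (u + ψ) / 2 = u / 2 + ψ / 2 by ring,
    show (u - ψ') / 2 = u / 2 - ψ' / 2 by ring, show (u + ψ') / 2 = u / 2 + ψ' / 2 by ring,
    show (u - χ) / 2 = u / 2 - χ / 2 by ring, show (u + χ) / 2 = u / 2 + χ / 2 by ring]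
  exact ⟨log_div_near p2 p1 q2 q1, log_div_near p4 p3 q4 q3, log_div_near p5 p6 q5 q6⟩

/-! ### Linear algebra of the angle structures -/

lemma rlam_step {w : ℤ} {f g F G f' g' F' G' : Fl} (h : VX w f g F G f' g' F' G')
    (pf : f'.Pos) (pg : g'.Pos) (pF : F'.Pos) (pG : G'.Pos)
    (d1 : f'.b + f'.c' + (g'.b + g'.c') = 2 * π) (d2 : F'.b + F'.c' + (G'.b + G'.c') = 2 * π) :
    rlam f' g' F' G' = rlam f g F G := by
  obtain ⟨-, -, -, a1, -, -, -, a2⟩ := pf
  obtain ⟨-, -, -, a3, -, -, -, a4⟩ := pg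
  obtain ⟨-, -, -, a5, -, -, -, a6⟩ := pF
  obtain ⟨-, -, -, a7, -, -, -, a8⟩ := pG
  have h1 := h.axis
  have h2 := h.ca
  unfold rlam
  linarith

lemma VX.pq {w : ℤ} {f g F G f' g' F' G' : Fl} (h : VX w f g F G f' g' F' G') :
    (g.a + g.a' + G.b) + (g.b + G.a + G.a') + ((f'.a + f'.a' + F'.b) + (f'.b + F'.a + F'.a')) =
      4 * π := by
  rcases Int.even_or_odd w with hw | hw
  · obtain ⟨h1, h2⟩ := h.even hw
    linarith
  · obtain ⟨h1, h2⟩ := h.odd hw
    linarith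

lemma vertexX {w : ℤ} {f g F G f' g' F' G' : Fl} (h : VX w f g F G f' g' F' G')
    {a a' b c : ℂ} (he : I * (w * (2 * b) + 2 * π) = lgr a b + lgr a' b) (K2 : ℝ) :
    TB a' b c K2 f' g' F' G' + TU a b c K2 f g F G = 0 := by
  have h1 := h.strand
  have h2 := h.axis
  have h3 := h.ca
  have h4 := h.cr
  have h5 := h.pq
  have h6 := h.fill
  unfold Fl.cr Fl.tw at h6
  have e1 : (lgr a b).re + (lgr a' b).re = -(2 * w * b.im) := by
    rw [← Complex.add_re, ← he, re_I_mul]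
    simp
    ring
  have e2 : (lgr a b).im + (lgr a' b).im = 2 * w * b.re + 2 * π := by
    rw [← Complex.add_im, ← he, im_I_mul]
    simp
    ring
  unfold TB TU
  have e3 : g.a + g.a' + G.b + (g.b + G.a + G.a') =
      4 * π - ((f'.a + f'.a' + F'.b) + (f'.b + F'.a + F'.a')) := by linarith
  linear_combination (log (cos b)).re * (h1 + h5) + K2 / 2 * (h4 + h2) +
    (log (cos (b + c))).re * h3 - (lgr a b).re / 2 * e3 +
    ((f'.a + f'.a' + F'.b) + (f'.b + F'.a + F'.a') - (2 * π + 4 * b.re)) / 2 * e1 +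
    b.im * h6 - 2 * b.im * e2

/-! ### The structure of a critical configuration -/

section

variable {n : ℕ} {a : ℕ → ℤ} {m : ℤ} {z : ℕ → ℂ} {χ : ℂ} {u : ℕ → ℂ}

lemma CritX.bx (h : CritX n a m z χ u) {j : ℕ} (hj : j < n) :
    BX (u j / 2) (z j / 2) (z ((j + 1) % n) / 2) (χ / 2) := (h.hx j hj).bx.2

lemma CritX.lgr (h : CritX n a m z χ u) {j : ℕ} (hj : j < n) :
    I * (a ((j + 1) % n) * (2 * (z ((j + 1) % n) / 2)) + 2 * π) =
      lgr (u j / 2) (z ((j + 1) % n) / 2) +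
      Chi.lgr (u ((j + 1) % n) / 2) (z ((j + 1) % n) / 2) := by
  have h1 : (j + 1) % n < n := Nat.mod_lt _ (by omega)
  rw [← (h.bx hj).lg1.2.1, ← (h.bx h1).lg1.1, show 2 * (z ((j + 1) % n) / 2) = z ((j + 1) % n) by
    ring]
  exact h.vert j hj

lemma CritX.lcr (h : CritX n a m z χ u) :
    I * (2 * m * (2 * (χ / 2)) + 2 * π) = ∑ j ∈ range n, lcr (u j / 2) (χ / 2) := by
  rw [show 2 * (χ / 2) = χ by ring, h.axis]
  refine sum_congr rfl fun j hj => ?_
  rw [mem_range] at hj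
  exact (h.bx hj).lg1.2.2

theorem crit_ang (hn : 1 ≤ n) (h : CritX n a m z χ u) :
    ChiAng n a m (fun j => flA (u j / 2) (z j / 2) (χ / 2))
      (fun j => flA (u j / 2) (-(z ((j + 1) % n) / 2)) (-(χ / 2)))
      (fun j => flB (u j / 2) (z j / 2) (χ / 2))
      (fun j => flB (u j / 2) (-(z ((j + 1) % n) / 2)) (-(χ / 2))) := by
  refine ⟨?_, ?_, ?_, ?_⟩
  · intro j hj
    exact ⟨(h.bx hj).s1.posA, (h.bx hj).s2.posA, (h.bx hj).s1.posB, (h.bx hj).s2.posB⟩
  · intro j hj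
    exact ⟨(blkAng (h.bx hj)).dA, (blkAng (h.bx hj)).dB⟩
  · intro j hj
    have h1 : (j + 1) % n < n := Nat.mod_lt _ (by omega)
    have q := blkAng (h.bx hj)
    have q' := blkAng (h.bx h1)
    refine ⟨?_, ?_, ?_, ?_, ?_, ?_, ?_⟩
    · linarith [q.TS, q'.BS]
    · linarith [q.TA, q'.BA]
    · linarith [q.CAt, q'.CAb]
    · linarith [q.CRt, q'.CRb]
    · intro _
      exact ⟨by linarith [q.Pt, q'.Pb], by linarith [q.Qt, q'.Qb]⟩
    · intro _
      exact ⟨by linarith [q.Qt, q'.Pb], by linarith [q.Pt, q'.Qb]⟩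
    · obtain ⟨-, c2, -⟩ := blkCr (h.bx hj)
      obtain ⟨c1, -, -⟩ := blkCr (h.bx h1)
      have he := congrArg Complex.im (h.lgr hj)
      rw [Complex.add_im, im_I_mul] at he
      simp only [Complex.add_re, Complex.mul_re, Complex.intCast_re, Complex.intCast_im, zero_mul,
        sub_zero, Complex.re_ofNat, Complex.im_ofNat, Complex.ofReal_re, Complex.ofReal_im] at he
      unfold Fl.cr Fl.tw
      have q1 := q'.Pb
      have q2 := q'.Qb
      linear_combination c1 - c2 - 2 * he - (a ((j + 1) % n) : ℝ) * q1 - (a ((j + 1) % n) : ℝ) * q2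
  · have h0 : 0 < n := by omega
    have hr : ∀ j ∈ range n, rho (flA (u j / 2) (z j / 2) (χ / 2))
        (flA (u j / 2) (-(z ((j + 1) % n) / 2)) (-(χ / 2)))
        (flB (u j / 2) (z j / 2) (χ / 2))
        (flB (u j / 2) (-(z ((j + 1) % n) / 2)) (-(χ / 2))) =
        -2 * (Chi.lcr (u j / 2) (χ / 2)).im + (2 * (log (cos (z j / 2 + χ / 2))).im -
          2 * (log (cos (z ((j + 1) % n) / 2 + χ / 2))).im) := by
      intro j hj
      rw [mem_range] at hj
      obtain ⟨-, -, c3⟩ := blkCr (h.bx hj)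
      unfold rho
      linarith
    rw [sum_congr rfl hr, sum_add_distrib, sum_sub_distrib,
      sum_succ_mod n hn (fun j => 2 * (log (cos (z j / 2 + χ / 2))).im), sub_self, add_zero,
      ← mul_sum]
    have he := congrArg Complex.im h.lcr
    rw [Complex.im_sum, im_I_mul] at he
    have e1 : (2 * (m : ℂ) * (2 * (χ / 2)) + 2 * π).re = 2 * m * (2 * (χ / 2).re) + 2 * π := by
      simp
    rw [e1] at he
    rw [← he]
    have q := blkAng (h.bx h0)
    have q1 := q.TA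
    have q2 := q.CAt
    unfold rlam
    linear_combination (2 * (m : ℝ)) * q1 + 2 * (m : ℝ) * q2

theorem crit_vol (hV : S_VLF) (hn : 1 ≤ n) (h : CritX n a m z χ u) :
    chiVol n (fun j => flA (u j / 2) (z j / 2) (χ / 2))
      (fun j => flA (u j / 2) (-(z ((j + 1) % n) / 2)) (-(χ / 2)))
      (fun j => flB (u j / 2) (z j / 2) (χ / 2))
      (fun j => flB (u j / 2) (-(z ((j + 1) % n) / 2)) (-(χ / 2))) =
      ∑ j ∈ range n, hvX (z j) (z ((j + 1) % n)) χ (u j) := by
  unfold chiVol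
  have hr : ∀ j ∈ range n, (flA (u j / 2) (z j / 2) (χ / 2)).vol +
      (flA (u j / 2) (-(z ((j + 1) % n) / 2)) (-(χ / 2))).vol +
      (flB (u j / 2) (z j / 2) (χ / 2)).vol +
      (flB (u j / 2) (-(z ((j + 1) % n) / 2)) (-(χ / 2))).vol =
      hvX (z j) (z ((j + 1) % n)) χ (u j) + ((eps (z j / 2) - eps (z j / 2 + χ / 2)) -
        (eps (z ((j + 1) % n) / 2) - eps (z ((j + 1) % n) / 2 + χ / 2))) := by
    intro j hj
    rw [mem_range] at hj
    have := blk_vol hV (h.hx j hj)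
    unfold bv at this
    rw [this]
    ring
  rw [sum_congr rfl hr, sum_add_distrib, sum_sub_distrib,
    sum_succ_mod n hn (fun j => eps (z j / 2) - eps (z j / 2 + χ / 2)), sub_self, add_zero]

theorem crit_max (htet : S_TET) (hn : 1 ≤ n) (h : CritX n a m z χ u) {f g F G : ℕ → Fl}
    (hy : ChiAng n a m f g F G) :
    chiVol n f g F G ≤ chiVol n (fun j => flA (u j / 2) (z j / 2) (χ / 2))
      (fun j => flA (u j / 2) (-(z ((j + 1) % n) / 2)) (-(χ / 2)))
      (fun j => flB (u j / 2) (z j / 2) (χ / 2))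
      (fun j => flB (u j / 2) (-(z ((j + 1) % n) / 2)) (-(χ / 2))) := by
  have h0 : 0 < n := by omega
  -- the rotation along the longitude of the axis is constant
  have hR : ∀ j < n, rlam (f j) (g j) (F j) (G j) = rlam (f 0) (g 0) (F 0) (G 0) := by
    intro j
    induction j with
    | zero => intro _; rfl
    | succ k ih =>
      intro hk
      have hk' : k < n := by omega
      have e : (k + 1) % n = k + 1 := Nat.mod_eq_of_lt hk
      have hv := hy.vert k hk'
      rw [e] at hv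
      obtain ⟨p1, p2, p3, p4⟩ := hy.pos _ hk
      obtain ⟨d1, d2⟩ := hy.diag _ hk
      rw [rlam_step hv p1 p2 p3 p4 d1 d2, ih hk']
  have h1 : chiVol n f g F G ≤
      chiVol n (fun j => flA (u j / 2) (z j / 2) (χ / 2))
      (fun j => flA (u j / 2) (-(z ((j + 1) % n) / 2)) (-(χ / 2)))
      (fun j => flB (u j / 2) (z j / 2) (χ / 2))
      (fun j => flB (u j / 2) (-(z ((j + 1) % n) / 2)) (-(χ / 2))) -
      ∑ j ∈ range n, (TB (u j / 2) (z j / 2) (χ / 2) ((log (cos (z j / 2 + χ / 2))).re +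
          (log (cos (z j / 2 - χ / 2))).re) (f j) (g j) (F j) (G j) +
        TU (u j / 2) (z ((j + 1) % n) / 2) (χ / 2) ((log (cos (z ((j + 1) % n) / 2 + χ / 2))).re +
          (log (cos (z ((j + 1) % n) / 2 - χ / 2))).re) (f j) (g j) (F j) (G j) +
        TX (u j / 2) (z j / 2) (z ((j + 1) % n) / 2) (χ / 2) (f j) (g j) (F j) (G j)) := by
    unfold chiVol
    rw [← sum_sub_distrib]
    refine sum_le_sum fun j hj => ?_
    rw [mem_range] at hj
    have hB := h.bx hj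
    obtain ⟨p1, p2, p3, p4⟩ := hy.pos j hj
    obtain ⟨d1, d2⟩ := hy.diag j hj
    have key := blk_lf hB p1 p2 p3 p4 d1 d2
    have v1 := vol_le htet _ (f j) hB.s1.posA p1
    have v2 := vol_le htet _ (g j) hB.s2.posA p2
    have v3 := vol_le htet _ (F j) hB.s1.posB p3
    have v4 := vol_le htet _ (G j) hB.s2.posB p4
    linarith
  have h2 : ∑ j ∈ range n, (TB (u j / 2) (z j / 2) (χ / 2) ((log (cos (z j / 2 + χ / 2))).re +
          (log (cos (z j / 2 - χ / 2))).re) (f j) (g j) (F j) (G j) +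
        TU (u j / 2) (z ((j + 1) % n) / 2) (χ / 2) ((log (cos (z ((j + 1) % n) / 2 + χ / 2))).re +
          (log (cos (z ((j + 1) % n) / 2 - χ / 2))).re) (f j) (g j) (F j) (G j) +
        TX (u j / 2) (z j / 2) (z ((j + 1) % n) / 2) (χ / 2) (f j) (g j) (F j) (G j)) = 0 := by
    rw [sum_add_distrib, sum_add_distrib,
      ← sum_succ_mod n hn (fun j => TB (u j / 2) (z j / 2) (χ / 2)
        ((log (cos (z j / 2 + χ / 2))).re + (log (cos (z j / 2 - χ / 2))).re)
        (f j) (g j) (F j) (G j)), ← sum_add_distrib]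
    have e1 : ∑ j ∈ range n, (TB (u ((j + 1) % n) / 2) (z ((j + 1) % n) / 2) (χ / 2)
        ((log (cos (z ((j + 1) % n) / 2 + χ / 2))).re +
          (log (cos (z ((j + 1) % n) / 2 - χ / 2))).re)
        (f ((j + 1) % n)) (g ((j + 1) % n)) (F ((j + 1) % n)) (G ((j + 1) % n)) +
        TU (u j / 2) (z ((j + 1) % n) / 2) (χ / 2) ((log (cos (z ((j + 1) % n) / 2 + χ / 2))).re +
          (log (cos (z ((j + 1) % n) / 2 - χ / 2))).re) (f j) (g j) (F j) (G j)) = 0 := by
      refine sum_eq_zero fun j hj => ?_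
      rw [mem_range] at hj
      exact vertexX (hy.vert j hj) (h.lgr hj) _
    rw [e1, zero_add]
    have e2 : ∀ j ∈ range n, TX (u j / 2) (z j / 2) (z ((j + 1) % n) / 2) (χ / 2) (f j) (g j) (F j)
        (G j) = (Chi.lcr (u j / 2) (χ / 2)).re *
          ((rlam (f 0) (g 0) (F 0) (G 0) - 4 * (χ / 2).re) / 2) +
        (-(χ / 2).im) * (rho (f j) (g j) (F j) (G j)) +
        (-2 * (χ / 2).im) * (Chi.lcr (u j / 2) (χ / 2)).im +
        ((χ / 2).im * (2 * (log (cos (z j / 2 + χ / 2))).im) -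
        (χ / 2).im * (2 * (log (cos (z ((j + 1) % n) / 2 + χ / 2))).im)) := by
      intro j hj
      rw [mem_range] at hj
      have := hR j hj
      rw [← this]
      unfold TX rlam rho
      ring
    rw [sum_congr rfl e2, sum_add_distrib, sum_add_distrib, sum_add_distrib, sum_sub_distrib,
      sum_succ_mod n hn (fun j => (χ / 2).im * (2 * (log (cos (z j / 2 + χ / 2))).im)), sub_self,
      add_zero, ← sum_mul, ← mul_sum, ← mul_sum, hy.fill]
    have he := congrArg Complex.im h.lcr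
    have hf := congrArg Complex.re h.lcr
    rw [Complex.im_sum, im_I_mul] at he
    rw [Complex.re_sum, re_I_mul] at hf
    have g1 : (2 * (m : ℂ) * (2 * (χ / 2)) + 2 * π).re = 2 * m * (2 * (χ / 2).re) + 2 * π := by
      simp
    have g2 : (2 * (m : ℂ) * (2 * (χ / 2)) + 2 * π).im = 2 * m * (2 * (χ / 2).im) := by
      simp
    rw [g1] at he
    rw [g2] at hf
    rw [← he, ← hf]
    ring
  rw [h2] at h1
  linarith

end

theorem geox_of (htet : S_TET) (hV : S_VLF) : S_GEOX := by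
  intro n a m z χ u hn h
  refine ⟨⟨_, _, _, _, crit_ang hn h, crit_vol hV hn h⟩, ?_⟩
  rintro W ⟨f, g, F, G, hy, rfl⟩
  rw [← crit_vol hV hn h]
  exact crit_max htet hn h hy

end Pool.Agent.Y482.Chi
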