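import Pool.Agent.W505.VC.Five
import Pool.Agent.W719.AR.Defs

/-!
# Ideal triangles in logarithmic coordinates
-/

set_option autoImplicit false

namespace Pool.Agent.Y482.Chi

open Filter Finset EvenVol GapVol EvenVol.LobIneq Pool.Agent.W709.VC Pool.Agent.W505.VC
open Pool.Agent.W719.AR (Fl)
open scoped Real Topology

/-- `A`, `B` are logarithms of `z` and `1 / (1 - z)`, where `z` is the shape of a positively
oriented ideal tetrahedron -/
structure Tri (A B : ℂ) : Prop where
  eq : Complex.exp A + Complex.exp (-B) = 1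
  pA : 0 < A.im
  pB : 0 < B.im
  lt : A.im + B.im < π

/-- the third angle -/
noncomputable def th (A B : ℂ) : ℝ := π - A.im - B.im

/-- volume -/
noncomputable def tv (A B : ℂ) : ℝ := lob A.im + lob B.im + lob (th A B)

namespace Tri

variable {A B : ℂ}

lemma im_eq (h : Tri A B) :
    Real.exp A.re * Real.sin A.im = Real.exp (-B.re) * Real.sin B.im := by
  have h1 := congrArg Complex.im h.eq
  simp only [Complex.add_im, Complex.exp_im, Complex.neg_re, Complex.neg_im, Real.sin_neg,
    Complex.one_im] at h1
  linarith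

lemma re_eq (h : Tri A B) :
    Real.exp A.re * Real.cos A.im + Real.exp (-B.re) * Real.cos B.im = 1 := by
  have h1 := congrArg Complex.re h.eq
  simp only [Complex.add_re, Complex.exp_re, Complex.neg_re, Complex.neg_im, Real.cos_neg,
    Complex.one_re] at h1
  linarith

lemma sinA_pos (h : Tri A B) : 0 < Real.sin A.im :=
  Real.sin_pos_of_pos_of_lt_pi h.pA (by linarith [h.lt, h.pB])

lemma sinB_pos (h : Tri A B) : 0 < Real.sin B.im :=
  Real.sin_pos_of_pos_of_lt_pi h.pB (by linarith [h.lt, h.pA])

lemma th_pos (h : Tri A B) : 0 < th A B := by unfold th; linarith [h.lt]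

lemma sinC_pos (h : Tri A B) : 0 < Real.sin (th A B) :=
  Real.sin_pos_of_pos_of_lt_pi h.th_pos (by unfold th; linarith [h.pA, h.pB])

lemma sinC (h : Tri A B) : Real.sin (th A B) = Real.exp B.re * Real.sin A.im ∧
    Real.sin (th A B) = Real.exp (-A.re) * Real.sin B.im := by
  have h1 := h.im_eq
  have h2 := h.re_eq
  have e1 : Real.exp (-B.re) * Real.exp B.re = 1 := by rw [← Real.exp_add]; simp
  have e2 : Real.exp (-A.re) * Real.exp A.re = 1 := by rw [← Real.exp_add]; simp
  have h3 : Real.sin (th A B) = Real.sin A.im * Real.cos B.im + Real.cos A.im * Real.sin B.im := by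
    unfold th
    rw [show π - A.im - B.im = π - (A.im + B.im) by ring, Real.sin_pi_sub, Real.sin_add]
  rw [h3]
  constructor
  · have : Real.sin B.im = Real.exp B.re * Real.exp A.re * Real.sin A.im := by
      linear_combination (-Real.sin B.im) * e1 - Real.exp B.re * h1
    rw [this]
    linear_combination (-Real.sin A.im * Real.cos B.im) * e1 + Real.exp B.re * Real.sin A.im * h2
  · have : Real.sin A.im = Real.exp (-A.re) * Real.exp (-B.re) * Real.sin B.im := by
      linear_combination (-Real.sin A.im) * e2 + Real.exp (-A.re) * h1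
    rw [this]
    linear_combination (-Real.sin B.im * Real.cos A.im) * e2 + Real.exp (-A.re) * Real.sin B.im * h2

lemma logA (h : Tri A B) :
    Real.log (2 * Real.sin A.im) - Real.log (2 * Real.sin (th A B)) = -B.re := by
  rw [h.sinC.1, show 2 * (Real.exp B.re * Real.sin A.im) = Real.exp B.re * (2 * Real.sin A.im) by
    ring, Real.log_mul (Real.exp_pos _).ne' (by have := h.sinA_pos; positivity), Real.log_exp]
  ring

lemma logB (h : Tri A B) :
    Real.log (2 * Real.sin B.im) - Real.log (2 * Real.sin (th A B)) = A.re := by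
  rw [h.sinC.2, show 2 * (Real.exp (-A.re) * Real.sin B.im) =
    Real.exp (-A.re) * (2 * Real.sin B.im) by
    ring, Real.log_mul (Real.exp_pos _).ne' (by have := h.sinB_pos; positivity), Real.log_exp]
  ring

/-- the volume is the Bloch-Wigner function -/
lemma dv (h : Tri A B) : Dv (Complex.exp A) = tv A B := by
  have hA : Complex.arg (Complex.exp A) = A.im := by
    rw [Complex.arg_exp, toIocMod_eq_self]
    · exact ⟨by linarith [h.pA, Real.pi_pos], by linarith [h.lt, h.pB, Real.pi_pos]⟩
  have h1 : (1 : ℂ) - Complex.exp A = Complex.exp (-B) := by linear_combination -h.eq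
  have h2 : (1 : ℂ) / (1 - Complex.exp A) = Complex.exp B := by
    rw [h1, Complex.exp_neg, one_div, inv_inv]
  have hB : Complex.arg (Complex.exp B) = B.im := by
    rw [Complex.arg_exp, toIocMod_eq_self]
    · exact ⟨by linarith [h.pB, Real.pi_pos], by linarith [h.lt, h.pA, Real.pi_pos]⟩
  have h3 : (1 : ℂ) - 1 / Complex.exp A = Complex.exp (π * Complex.I - A - B) := by
    rw [Complex.exp_sub, Complex.exp_sub, Complex.exp_pi_mul_I]
    have e1 : Complex.exp A ≠ 0 := Complex.exp_ne_zero _
    have e2 : Complex.exp B ≠ 0 := Complex.exp_ne_zero _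
    have e3 : Complex.exp A = 1 - (Complex.exp B)⁻¹ := by
      rw [← Complex.exp_neg]; linear_combination h.eq
    field_simp
    rw [e3]
    field_simp
    ring
  have hC : Complex.arg (Complex.exp (π * Complex.I - A - B)) = th A B := by
    have e1 : (π * Complex.I - A - B).im = th A B := by simp [th]
    rw [Complex.arg_exp, e1, toIocMod_eq_self]
    exact ⟨by linarith [h.th_pos, Real.pi_pos], by unfold th; linarith [h.pA, h.pB]⟩
  unfold Dv tv
  rw [hA, h2, hB, h3, hC]

/-- derivative of the volume along a curve -/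
lemma hasDeriv {A B : ℝ → ℂ} {A' B' : ℂ} {t : ℝ} (h : Tri (A t) (B t)) (hA : HasDerivAt A A' t)
    (hB : HasDerivAt B B' t) :
    HasDerivAt (fun s => tv (A s) (B s)) ((B t).re * A'.im - (A t).re * B'.im) t := by
  have dA : HasDerivAt (fun s => (A s).im) A'.im t :=
    Complex.imCLM.hasFDerivAt.comp_hasDerivAt t hA
  have dB : HasDerivAt (fun s => (B s).im) B'.im t :=
    Complex.imCLM.hasFDerivAt.comp_hasDerivAt t hB
  have dC : HasDerivAt (fun s => th (A s) (B s)) (-A'.im - B'.im) t := by
    unfold th
    exact ((hasDerivAt_const t π).sub dA |>.sub dB).congr_deriv (by ring)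
  have lA := (lob_hasDerivAt h.sinA_pos.ne').comp t dA
  have lB := (lob_hasDerivAt h.sinB_pos.ne').comp t dB
  have lC := (lob_hasDerivAt h.sinC_pos.ne').comp t dC
  have gA : g (A t).im = -Real.log (2 * Real.sin (A t).im) := by
    rw [g_eq_abs, abs_of_pos (by have := h.sinA_pos; positivity)]
  have gB : g (B t).im = -Real.log (2 * Real.sin (B t).im) := by
    rw [g_eq_abs, abs_of_pos (by have := h.sinB_pos; positivity)]
  have gC : g (th (A t) (B t)) = -Real.log (2 * Real.sin (th (A t) (B t))) := by
    rw [g_eq_abs, abs_of_pos (by have := h.sinC_pos; positivity)]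
  rw [gA] at lA
  rw [gB] at lB
  rw [gC] at lC
  have e1 := h.logA
  have e2 := h.logB
  refine ((lA.add lB).add lC).congr_deriv ?_
  linear_combination (-A'.im) * e1 + (-B'.im) * e2

end Tri

end Pool.Agent.Y482.Chi
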