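import Pool.Agent.Y482.Chi.Ang

/-!
# The ideal tetrahedra of the potential
-/

set_option autoImplicit false

namespace Pool.Agent.Y482.Chi

open Filter
open Complex (exp log cos sin I)
open scoped Real Topology

noncomputable def xA (x : ℂ) : ℂ := I * (2 * x)
noncomputable def xB (x : ℂ) : ℂ := I * (π / 2) - I * x - log (sin x) - (Real.log 2 : ℝ)
noncomputable def yA (y : ℂ) : ℂ := I * π - I * (2 * y)
noncomputable def yB (y : ℂ) : ℂ := I * y - log (cos y) - (Real.log 2 : ℝ)
noncomputable def zA (x : ℂ) : ℂ := I * (π / 2) + I * x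
noncomputable def zB (x : ℂ) : ℂ := -log (1 - I * exp (I * x))

lemma exp_log2 : exp ((Real.log 2 : ℝ) : ℂ) = 2 := by
  rw [← Complex.ofReal_exp, Real.exp_log (by norm_num)]; norm_num

lemma pi_re : ((π : ℂ)).re = π := Complex.ofReal_re _

lemma re_near {x : ℂ} {r : ℝ} (hx : ‖x - π / 4‖ ≤ r) : |x.re - π / 4| ≤ r := by
  have h1 := (Complex.abs_re_le_norm _).trans hx
  have h2 : (x - π / 4).re = x.re - π / 4 := by
    have : ((π : ℂ) / 4) = ((π / 4 : ℝ) : ℂ) := by push_cast; rfl
    rw [this, Complex.sub_re, Complex.ofReal_re]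
  rwa [h2] at h1

theorem triX {x : ℂ} (hx : ‖x - π / 4‖ ≤ 17 / 300) : Tri (xA x) (xB x) := by
  obtain ⟨-, k1, -, k2⟩ := cs_near hx
  have k3 := re_near hx
  rw [abs_le] at k2 k3
  have hpi := Real.pi_gt_three
  have i1 : (xA x).im = 2 * x.re := by
    unfold xA
    rw [im_I_mul]
    simp
  have i2 : (xB x).im = π / 2 - x.re - (log (sin x)).im := by
    unfold xB
    simp only [Complex.sub_im, im_I_mul, half_re, Complex.ofReal_im, sub_zero]
  refine ⟨?_, ?_, ?_, ?_⟩
  · unfold xA xB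
    rw [show -(I * (π / 2) - I * x - log (sin x) - (Real.log 2 : ℝ)) =
      -(I * (π / 2)) + I * x + log (sin x) + (Real.log 2 : ℝ) by ring, Complex.exp_add,
      Complex.exp_add, Complex.exp_add, Complex.exp_log k1, exp_log2, exp_nhalf, expI, expI,
      Complex.cos_two_mul, Complex.sin_two_mul]
    linear_combination 2 * Complex.sin_sq_add_cos_sq x - 2 * sin x ^ 2 * Complex.I_sq
  · rw [i1]; linarith
  · rw [i2]; linarith
  · rw [i1, i2]; linarith

theorem triY {y : ℂ} (hy : ‖y - π / 4‖ ≤ 17 / 300) : Tri (yA y) (yB y) := by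
  obtain ⟨k1, -, k2, -⟩ := cs_near hy
  have k3 := re_near hy
  rw [abs_le] at k2 k3
  have hpi := Real.pi_gt_three
  have i1 : (yA y).im = π - 2 * y.re := by
    unfold yA
    rw [Complex.sub_im, im_I_mul, im_I_mul, pi_re]
    simp
  have i2 : (yB y).im = y.re - (log (cos y)).im := by
    unfold yB
    simp only [Complex.sub_im, im_I_mul, Complex.ofReal_im, sub_zero]
  refine ⟨?_, ?_, ?_, ?_⟩
  · unfold yA yB
    rw [show -(I * y - log (cos y) - (Real.log 2 : ℝ)) =
      -(I * y) + log (cos y) + (Real.log 2 : ℝ) by ring, Complex.exp_sub, mul_comm I (π : ℂ),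
      Complex.exp_pi_mul_I,
      Complex.exp_add, Complex.exp_add, Complex.exp_log k1, exp_log2, expnI, expI,
      Complex.cos_two_mul, Complex.sin_two_mul]
    have h1 : (2 * cos y ^ 2 - 1 + 2 * sin y * cos y * I) * (2 * cos y ^ 2 - 1 - 2 * sin y * cos y * I) = 1 := by
      linear_combination (4 * cos y ^ 2) * Complex.sin_sq_add_cos_sq y -
        (4 * sin y ^ 2 * cos y ^ 2) * Complex.I_sq
    have h2 : (2 * cos y ^ 2 - 1 + 2 * sin y * cos y * I) ≠ 0 := left_ne_zero_of_mul_eq_one h1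
    rw [neg_div, one_div, (inv_eq_of_mul_eq_one_right h1)]
    ring
  · rw [i1]; linarith
  · rw [i2]; linarith
  · rw [i1, i2]; linarith

/-- `1 - i e^(ix)` -/
lemma z_near {x : ℂ} (hx : ‖x‖ ≤ 1 / 10) : 1 - I * exp (I * x) ≠ 0 ∧
    |(log (1 - I * exp (I * x))).im + π / 4| ≤ 1 / 5 := by
  have n0 := norm_nonneg x
  have h1 : ‖I * x‖ = ‖x‖ := by simp
  have h2 := exp_le' (x := I * x) (by rw [h1]; linarith)
  rw [h1] at h2
  have h3 : ‖exp (I * x) - 1‖ ≤ 11 / 100 := by nlinarith
  set w : ℂ := -(I / (1 - I)) * (exp (I * x) - 1) with hw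
  have h5 : (1 : ℂ) - I ≠ 0 := by
    intro h
    have := congrArg Complex.re h
    simp at this
  have h6 : ‖I / (1 - I)‖ = √2 / 2 := by
    rw [norm_div, Complex.norm_I, show (1 : ℂ) - I = ⟨1, -1⟩ by apply Complex.ext <;> simp,
      Complex.norm_eq_sqrt_sq_add_sq]
    norm_num
    rw [inv_eq_iff_eq_inv, inv_div]
    have : √2 * √2 = 2 := Real.mul_self_sqrt (by norm_num)
    rw [eq_div_iff (by positivity)]
    exact this
  have h7 : √2 ≤ 3 / 2 := by
    rw [Real.sqrt_le_left (by norm_num)]; norm_num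
  have hwn : ‖w‖ ≤ 1 / 10 := by
    rw [hw, norm_mul, norm_neg, h6]
    have := norm_nonneg (exp (I * x) - 1)
    nlinarith [Real.sqrt_nonneg 2]
  have hz : 1 - I * exp (I * x) = ((√2 : ℝ) : ℂ) * exp ((-(π / 4) : ℝ) * I) * (1 + w) := by
    have e1 : exp ((-(π / 4) : ℝ) * I) = ((√2 / 2 : ℝ) : ℂ) * (1 - I) := by
      rw [Complex.exp_mul_I]
      push_cast
      rw [Complex.cos_neg, Complex.sin_neg]
      have h1 : cos ((π : ℂ) / 4) = ((√2 / 2 : ℝ) : ℂ) := by
        rw [← Real.cos_pi_div_four]; push_cast; rfl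
      have h2 : sin ((π : ℂ) / 4) = ((√2 / 2 : ℝ) : ℂ) := by
        rw [← Real.sin_pi_div_four]; push_cast; rfl
      rw [h1, h2]
      push_cast
      ring
    have e2 : ((√2 : ℝ) : ℂ) * ((√2 / 2 : ℝ) : ℂ) = 1 := by
      rw [← Complex.ofReal_mul]
      have : √2 * (√2 / 2) = 1 := by
        have : √2 * √2 = 2 := Real.mul_self_sqrt (by norm_num)
        linarith
      rw [this]; simp
    have e3 : (1 - I) * (1 + w) = 1 - I * exp (I * x) := by
      rw [hw]
      field_simp
      ring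
    rw [e1, ← e3]
    linear_combination (-(1 - I) * (1 + w)) * e2
  have hpi := Real.pi_lt_d2
  have hpi0 := Real.pi_pos
  have := log_near (z := 1 - I * exp (I * x)) (w := w) (r := √2) (θ := -(π / 4)) (by positivity) hz
    (hwn.trans (by norm_num)) (by rw [abs_neg, abs_of_pos (by positivity)]; linarith)
  refine ⟨this.1, ?_⟩
  have h8 := this.2
  rw [sub_neg_eq_add] at h8
  linarith

theorem triZ {x : ℂ} (hx : ‖x‖ ≤ 1 / 10) : Tri (zA x) (zB x) := by
  obtain ⟨k1, k2⟩ := z_near hx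
  have k3 := (Complex.abs_re_le_norm x).trans hx
  rw [abs_le] at k2 k3
  have hpi := Real.pi_gt_three
  have i1 : (zA x).im = π / 2 + x.re := by
    unfold zA
    rw [Complex.add_im, im_I_mul, im_I_mul, half_re]
  have i2 : (zB x).im = -(log (1 - I * exp (I * x))).im := by
    unfold zB
    simp
  refine ⟨?_, ?_, ?_, ?_⟩
  · unfold zA zB
    rw [Complex.exp_add, exp_half, neg_neg, Complex.exp_log k1]
    ring
  · rw [i1]; linarith
  · rw [i2]; linarith
  · rw [i1, i2]; linarith

lemma z_sum {x : ℂ} (hx : ‖x‖ ≤ 1 / 10) :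
    zB x + zB (-x) = I * (π / 2) - log (cos x) - (Real.log 2 : ℝ) := by
  obtain ⟨k1, k2⟩ := z_near hx
  obtain ⟨k3, k4⟩ := z_near (x := -x) (by rwa [norm_neg])
  obtain ⟨k5, k6⟩ := cos_small hx
  have hpi := Real.pi_gt_three
  have key : log (1 - I * exp (I * x)) + log (1 - I * exp (I * (-x))) =
      -(I * (π / 2)) + log (cos x) + (Real.log 2 : ℝ) := by
    apply exp_inj'
    · rw [Complex.exp_add, Complex.exp_add, Complex.exp_add, Complex.exp_log k1,
        Complex.exp_log k3, Complex.exp_log k5, exp_log2, exp_nhalf, expI,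
        show I * -x = -(I * x) by ring, expnI]
      linear_combination (cos x ^ 2 * I ^ 2 - sin x ^ 2 * I ^ 4 - I ^ 2 * cos x ^ 2 + 0) * 0 +
        (cos x ^ 2 - sin x ^ 2 * (I ^ 2 - 1)) * Complex.I_sq - Complex.sin_sq_add_cos_sq x
    · rw [abs_le] at k2 k4 k6
      simp only [Complex.add_im, Complex.neg_im, im_I_mul, half_re, Complex.ofReal_im, add_zero]
      rw [abs_lt]
      constructor <;> linarith
  unfold zB
  linear_combination -key

end Pool.Agent.Y482.Chi
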