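import Pool.Agent.Y482.Chi.TriXY
import Pool.Agent.Y482.Chi.Alg

/-!
# The volume of a block
-/

set_option autoImplicit false

namespace Pool.Agent.Y482.Chi

open Filter
open Complex (exp log cos sin I)
open Pool.Agent.W719.AR (Fl)
open scoped Real Topology

/-- volume of a block -/
noncomputable def bv (a b d c : ℂ) : ℝ :=
  (flA a b c).vol + (flA a (-d) (-c)).vol + (flB a b c).vol + (flB a (-d) (-c)).vol

noncomputable def eps (x : ℂ) : ℝ := 2 * (tv (zA x) (zB x) - tv (zA (-x)) (zB (-x)))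

noncomputable def hvt (a b d c : ℂ) : ℝ :=
  2 * tv (xA a) (xB a) + tv (xA (a + c)) (xB (a + c)) + tv (xA (a - c)) (xB (a - c)) +
    tv (yA (a - b)) (yB (a - b)) + tv (yA (a + b)) (yB (a + b)) +
    tv (yA (a - d)) (yB (a - d)) + tv (yA (a + d)) (yB (a + d))

lemma bv_eq (a b d c : ℂ) : bv a b d c =
    (tv (aA1 a b) (aB1 a b) + tv (aA2 a b c) (aB2 a b c)) +
    (tv (aA1 a (-d)) (aB1 a (-d)) + tv (aA2 a (-d) (-c)) (aB2 a (-d) (-c))) +
    (tv (bA1 a b c) (bB1 a b c) + tv (bA2 a b c) (bB2 a b c)) +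
    (tv (bA1 a (-d) (-c)) (bB1 a (-d) (-c)) + tv (bA2 a (-d) (-c)) (bB2 a (-d) (-c))) := rfl

section
variable {f g : ℝ → ℂ} {f' g' : ℂ} {s : ℝ}

lemma hsin (hf : HasDerivAt f f' s) : HasDerivAt (fun t => sin (f t)) (cos (f s) * f') s :=
  (Complex.hasDerivAt_sin _).comp s hf

lemma hcos (hf : HasDerivAt f f' s) : HasDerivAt (fun t => cos (f t)) (-sin (f s) * f') s :=
  (Complex.hasDerivAt_cos _).comp s hf

lemma hexp (hf : HasDerivAt f f' s) : HasDerivAt (fun t => exp (f t)) (exp (f s) * f') s :=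
  (Complex.hasDerivAt_exp _).comp s hf

lemma dlog (hf : HasDerivAt f f' s) (h0 : f s ≠ 0) (h1 : |(log (f s)).im| ≤ 1) :
    ∃ p, HasDerivAt (fun t => log (f t)) p s := by
  refine ⟨_, HasDerivAt.clog_real hf ?_⟩
  rw [Complex.mem_slitPlane_iff_arg]
  refine ⟨?_, h0⟩
  intro h
  rw [Complex.log_im, h, abs_of_pos Real.pi_pos] at h1
  linarith [Real.pi_gt_three]

lemma deq (hf : HasDerivAt f f' s) (hg : HasDerivAt g g' s) (h : ∀ᶠ t in 𝓝 s, f t = g t) :
    f' = g' :=
  hf.unique (hg.congr_of_eventuallyEq h)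

end

lemma top_eq (a d c : ℂ) :
    aA1 a (-d) = log (cos d) + I * a - log (cos (a - d)) ∧
    aB1 a (-d) = I * (π / 2) + log (cos (a - d)) - I * d - log (sin a) ∧
    aA2 a (-d) (-c) = I * (π / 2) + log (sin (a - c)) - I * a - I * d - log (cos (d + c)) ∧
    aB2 a (-d) (-c) = log (cos (d + c)) + I * a - I * c - log (cos (a + d)) ∧
    bA1 a (-d) (-c) = ups a (-d) (-c) - log (cos (a - d)) - log (cos (d + c)) ∧
    bB1 a (-d) (-c) = I * (π / 2) - I * d + log (cos (a - d)) + log (cos (d + c)) - log (cos d) -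
      log (sin (a - c)) ∧
    bA2 a (-d) (-c) = I * (π / 2) + log (sin a) - I * d + log (cos (d + c)) - ups a (-d) (-c) ∧
    bB2 a (-d) (-c) = ups a (-d) (-c) + I * c - log (cos (a + d)) - log (cos d) := by
  have ecc : cos (-d - c) = cos (d + c) := by rw [← Complex.cos_neg]; congr 1; ring
  refine ⟨?_, ?_, ?_, ?_, ?_, ?_, ?_, ?_⟩ <;>
  · simp only [aA1, aB1, aA2, aB2, bA1, bB1, bA2, bB2, Complex.cos_neg, ecc, mul_neg,
      ← sub_eq_add_neg, sub_neg_eq_add]

theorem dvol {af : ℝ → ℂ} {a' b d c : ℂ} {s : ℝ} (haf : HasDerivAt af a' s)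
    (hev : ∀ᶠ t in 𝓝 s, BX (af t) b d (t * c)) :
    HasDerivAt (fun t : ℝ => bv (af t) b d (t * c) - hvt (af t) b d (t * c) + eps (b + t * c) -
      eps (d + t * c)) 0 s := by
  have h : BX (af s) b d (s * c) := hev.self_of_nhds
  have hcf : HasDerivAt (fun t : ℝ => (t : ℂ) * c) c s := by
    have := (Complex.ofRealCLM.hasDerivAt (x := s)).mul_const c
    simpa using this
  obtain ⟨⟨kb, ib⟩, ⟨kd, id⟩, ⟨kK, iK⟩, -, ⟨kE, iE⟩, -, ⟨kCp, iCp⟩, ⟨kCm, iCm⟩, ⟨kDp, iDp⟩, ⟨kDm, iDm⟩,
    ⟨ksp, isp⟩, ⟨ksm, ism⟩, ⟨ksa, isa⟩, ⟨kU, iU⟩, ⟨kUt, iUt⟩⟩ := h.facts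
  have le1 : ∀ {x : ℝ}, |x| ≤ 1 / 10 → |x| ≤ 1 := fun h => h.trans (by norm_num)
  have le2 : ∀ {x : ℝ}, |x| ≤ 1 / 50 → |x| ≤ 1 := fun h => h.trans (by norm_num)
  have le3 : ∀ {x : ℝ}, |x - π / 4| ≤ 1 / 5 → |x| ≤ 1 := fun h => by
    have h1 := Real.pi_lt_d2
    have h2 := Real.pi_gt_three
    rw [abs_le] at h ⊢
    constructor <;> linarith
  obtain ⟨psa, hsa⟩ := dlog (hsin haf) ksa (le1 isa)
  obtain ⟨psp, hsp⟩ := dlog (hsin (haf.add hcf)) ksp (le1 isp)
  obtain ⟨psm, hsm⟩ := dlog (hsin (haf.sub hcf)) ksm (le1 ism)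
  obtain ⟨pCp, hCp⟩ := dlog (hcos (haf.add_const b)) kCp (le1 iCp)
  obtain ⟨pCm, hCm⟩ := dlog (hcos (haf.sub_const b)) kCm (le1 iCm)
  obtain ⟨pDp, hDp⟩ := dlog (hcos (haf.add_const d)) kDp (le1 iDp)
  obtain ⟨pDm, hDm⟩ := dlog (hcos (haf.sub_const d)) kDm (le1 iDm)
  obtain ⟨pK, hK⟩ := dlog (hcos (hcf.const_add b)) kK (le2 iK)
  obtain ⟨pE, hE⟩ := dlog (hcos (hcf.const_add d)) kE (le2 iE)
  obtain ⟨pU, hU⟩ : ∃ p, HasDerivAt (fun t : ℝ => ups (af t) b (t * c)) p s := by
    have h1 : HasDerivAt (fun t : ℝ => uph (af t) b (t * c)) _ s :=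
      ((hexp ((haf.add hcf).const_mul I)).const_mul (cos b ^ 2)).add ((hsin haf).mul (hsin hcf))
    exact dlog h1 kU (le3 iU)
  obtain ⟨pUt, hUt⟩ : ∃ p, HasDerivAt (fun t : ℝ => ups (af t) (-d) (-(t * c))) p s := by
    have h1 : HasDerivAt (fun t : ℝ => uph (af t) (-d) (-(t * c))) _ s :=
      ((hexp ((haf.add hcf.neg).const_mul I)).const_mul (cos (-d) ^ 2)).add
        ((hsin haf).mul (hsin hcf.neg))
    exact dlog h1 kUt (le3 iUt)
  -- relations between the derivatives
  have q1 : pCp + pCm + pDp + pDm = 2 * psa + psp + psm :=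
    deq (((hCp.add hCm).add hDp).add hDm) (((hsa.const_mul 2).add hsp).add hsm) (by
      filter_upwards [hev] with t ht using ht.r1)
  have q2 : pUt = pU + psa + psm - I * c - pCp - pCm :=
    deq hUt (((((hU.add hsa).add hsm).sub (hcf.const_mul I)).sub hCp).sub hCm) (by
      filter_upwards [hev] with t ht using ht.r2)
  -- the eight tetrahedra
  have v1 := (tri_a1 h.s1).hasDeriv (A := fun t => aA1 (af t) b) (B := fun t => aB1 (af t) b)
    (((haf.const_mul I).const_add (log (cos b))).sub hCp)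
    (((hCp.const_add (I * (π / 2))).add_const (I * b)).sub hsa)
  have v2 := (tri_a2 h.s1).hasDeriv (A := fun t : ℝ => aA2 (af t) b (t * c))
    (B := fun t : ℝ => aB2 (af t) b (t * c))
    ((((hsp.const_add (I * (π / 2))).sub (haf.const_mul I)).add_const (I * b)).sub hK)
    (((hK.add (haf.const_mul I)).add (hcf.const_mul I)).sub hCm)
  have v3 := (tri_b1 h.s1).hasDeriv (A := fun t : ℝ => bA1 (af t) b (t * c))
    (B := fun t : ℝ => bB1 (af t) b (t * c))
    ((hU.sub hCp).sub hK)
    ((((hCp.const_add (I * (π / 2) + I * b)).add hK).sub_const (log (cos b))).sub hsp)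
  have v4 := (tri_b2 h.s1).hasDeriv (A := fun t : ℝ => bA2 (af t) b (t * c))
    (B := fun t : ℝ => bB2 (af t) b (t * c))
    ((((hsa.const_add (I * (π / 2))).add_const (I * b)).add hK).sub hU)
    (((hU.sub (hcf.const_mul I)).sub hCm).sub_const (log (cos b)))
  have E : ∀ t : ℝ, _ := fun t => top_eq (af t) d (t * c)
  have w1 := (tri_a1 h.s2).hasDeriv (A := fun t => aA1 (af t) (-d)) (B := fun t => aB1 (af t) (-d))
    ((((haf.const_mul I).const_add (log (cos d))).sub hDm).congr_of_eventuallyEq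
      (Eventually.of_forall fun t => (E t).1))
    ((((hDm.const_add (I * (π / 2))).sub_const (I * d)).sub hsa).congr_of_eventuallyEq
      (Eventually.of_forall fun t => (E t).2.1))
  have w2 := (tri_a2 h.s2).hasDeriv (A := fun t : ℝ => aA2 (af t) (-d) (-(t * c)))
    (B := fun t : ℝ => aB2 (af t) (-d) (-(t * c)))
    (((((hsm.const_add (I * (π / 2))).sub (haf.const_mul I)).sub_const (I * d)).sub
      hE).congr_of_eventuallyEq (Eventually.of_forall fun t => (E t).2.2.1))
    ((((hE.add (haf.const_mul I)).sub (hcf.const_mul I)).sub hDp).congr_of_eventuallyEq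
      (Eventually.of_forall fun t => (E t).2.2.2.1))
  have w3 := (tri_b1 h.s2).hasDeriv (A := fun t : ℝ => bA1 (af t) (-d) (-(t * c)))
    (B := fun t : ℝ => bB1 (af t) (-d) (-(t * c)))
    (((hUt.sub hDm).sub hE).congr_of_eventuallyEq
      (Eventually.of_forall fun t => (E t).2.2.2.2.1))
    (((((hDm.const_add (I * (π / 2) - I * d)).add hE).sub_const (log (cos d))).sub
      hsm).congr_of_eventuallyEq (Eventually.of_forall fun t => (E t).2.2.2.2.2.1))
  have w4 := (tri_b2 h.s2).hasDeriv (A := fun t : ℝ => bA2 (af t) (-d) (-(t * c)))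
    (B := fun t : ℝ => bB2 (af t) (-d) (-(t * c)))
    (((((hsa.const_add (I * (π / 2))).sub_const (I * d)).add hE).sub hUt).congr_of_eventuallyEq
      (Eventually.of_forall fun t => (E t).2.2.2.2.2.2.1))
    ((((hUt.add (hcf.const_mul I)).sub hDp).sub_const (log (cos d))).congr_of_eventuallyEq
      (Eventually.of_forall fun t => (E t).2.2.2.2.2.2.2))
  -- the tetrahedra of the potential
  have na := h.s1.a
  have nb := h.s1.b
  have nd := h.hd
  have nc := h.s1.c
  have x1 := (triX (x := af s) (by linarith)).hasDeriv (A := fun t => xA (af t))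
    (B := fun t => xB (af t)) ((haf.const_mul 2).const_mul I)
    (((haf.const_mul I).const_sub (I * (π / 2))).sub hsa |>.sub_const _)
  have x2 := (triX (x := af s + s * c) (by
      rw [show af s + s * c - π / 4 = (af s - π / 4) + s * c by ring]
      exact (norm_add_le _ _).trans (by linarith))).hasDeriv (A := fun t => xA (af t + t * c))
    (B := fun t => xB (af t + t * c)) (((haf.add hcf).const_mul 2).const_mul I)
    ((((haf.add hcf).const_mul I).const_sub (I * (π / 2))).sub hsp |>.sub_const _)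
  have x3 := (triX (x := af s - s * c) (by
      rw [show af s - s * c - π / 4 = (af s - π / 4) - s * c by ring]
      exact (norm_sub_le _ _).trans (by linarith))).hasDeriv (A := fun t => xA (af t - t * c))
    (B := fun t => xB (af t - t * c)) (((haf.sub hcf).const_mul 2).const_mul I)
    ((((haf.sub hcf).const_mul I).const_sub (I * (π / 2))).sub hsm |>.sub_const _)
  have y1 := (triY (y := af s - b) (by
      rw [show af s - b - π / 4 = (af s - π / 4) - b by ring]
      exact (norm_sub_le _ _).trans (by linarith))).hasDeriv (A := fun t => yA (af t - b))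
    (B := fun t => yB (af t - b)) ((((haf.sub_const b).const_mul 2).const_mul I).const_sub (I * π))
    ((((haf.sub_const b).const_mul I).sub hCm).sub_const _)
  have y2 := (triY (y := af s + b) (by
      rw [show af s + b - π / 4 = (af s - π / 4) + b by ring]
      exact (norm_add_le _ _).trans (by linarith))).hasDeriv (A := fun t => yA (af t + b))
    (B := fun t => yB (af t + b)) ((((haf.add_const b).const_mul 2).const_mul I).const_sub (I * π))
    ((((haf.add_const b).const_mul I).sub hCp).sub_const _)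
  have y3 := (triY (y := af s - d) (by
      rw [show af s - d - π / 4 = (af s - π / 4) - d by ring]
      exact (norm_sub_le _ _).trans (by linarith))).hasDeriv (A := fun t => yA (af t - d))
    (B := fun t => yB (af t - d)) ((((haf.sub_const d).const_mul 2).const_mul I).const_sub (I * π))
    ((((haf.sub_const d).const_mul I).sub hDm).sub_const _)
  have y4 := (triY (y := af s + d) (by
      rw [show af s + d - π / 4 = (af s - π / 4) + d by ring]
      exact (norm_add_le _ _).trans (by linarith))).hasDeriv (A := fun t => yA (af t + d))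
    (B := fun t => yB (af t + d)) ((((haf.add_const d).const_mul 2).const_mul I).const_sub (I * π))
    ((((haf.add_const d).const_mul I).sub hDp).sub_const _)
  -- the correction terms
  have ez : ∀ {x : ℂ}, ‖x‖ ≤ 1 / 20 → BX (af s) b d (s * c) →
      (∃ pz, HasDerivAt (fun t : ℝ => zB (x + t * c)) pz s) ∧
      (∃ pz, HasDerivAt (fun t : ℝ => zB (-(x + t * c))) pz s) := by
    intro x hx hB
    have hn : ‖x + s * c‖ ≤ 1 / 10 := (norm_add_le _ _).trans (by linarith)
    obtain ⟨k1, k2⟩ := z_near hn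
    obtain ⟨k3, k4⟩ := z_near (x := -(x + s * c)) (by rwa [norm_neg])
    have l1 : |(log (1 - I * exp (I * (x + s * c)))).im| ≤ 1 := by
      have h1 := Real.pi_lt_d2
      have h2 := Real.pi_gt_three
      rw [abs_le] at k2 ⊢
      constructor <;> linarith
    have l2 : |(log (1 - I * exp (I * (-(x + s * c))))).im| ≤ 1 := by
      have h1 := Real.pi_lt_d2
      have h2 := Real.pi_gt_three
      rw [abs_le] at k4 ⊢
      constructor <;> linarith
    have d1 := hcf.const_add x
    obtain ⟨p1, e1⟩ := dlog (((hexp (d1.const_mul I)).const_mul I).const_sub 1) k1 l1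
    obtain ⟨p2, e2⟩ := dlog (((hexp (d1.neg.const_mul I)).const_mul I).const_sub 1) k3 l2
    exact ⟨⟨_, e1.neg⟩, ⟨_, e2.neg⟩⟩
  obtain ⟨⟨pb1, hb1⟩, ⟨pb2, hb2⟩⟩ := ez (x := b) nb h
  obtain ⟨⟨pd1, hd1⟩, ⟨pd2, hd2⟩⟩ := ez (x := d) nd h
  have q5 : pb1 + pb2 = -pK := by
    have := deq (hb1.add hb2) ((hK.const_sub (I * (π / 2))).sub_const ((Real.log 2 : ℝ) : ℂ)) (by
      filter_upwards [hev] with t ht
      exact z_sum ((norm_add_le _ _).trans (by linarith [ht.s1.b, ht.s1.c])))
    exact this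
  have q6 : pd1 + pd2 = -pE := by
    have := deq (hd1.add hd2) ((hE.const_sub (I * (π / 2))).sub_const ((Real.log 2 : ℝ) : ℂ)) (by
      filter_upwards [hev] with t ht
      exact z_sum ((norm_add_le _ _).trans (by linarith [ht.hd, ht.s1.c])))
    exact this
  have nbc : ‖b + s * c‖ ≤ 1 / 10 := (norm_add_le _ _).trans (by linarith)
  have ndc : ‖d + s * c‖ ≤ 1 / 10 := (norm_add_le _ _).trans (by linarith)
  have s5 := z_sum nbc
  have s6 := z_sum ndc
  have z1 := (triZ nbc).hasDeriv (A := fun t : ℝ => zA (b + t * c)) (B := fun t : ℝ => zB (b + t * c))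
    (((hcf.const_add b).const_mul I).const_add (I * (π / 2))) hb1
  have z2 := (triZ (x := -(b + s * c)) (by rwa [norm_neg])).hasDeriv
    (A := fun t : ℝ => zA (-(b + t * c))) (B := fun t : ℝ => zB (-(b + t * c)))
    (((hcf.const_add b).neg.const_mul I).const_add (I * (π / 2))) hb2
  have z3 := (triZ ndc).hasDeriv (A := fun t : ℝ => zA (d + t * c)) (B := fun t : ℝ => zB (d + t * c))
    (((hcf.const_add d).const_mul I).const_add (I * (π / 2))) hd1
  have z4 := (triZ (x := -(d + s * c)) (by rwa [norm_neg])).hasDeriv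
    (A := fun t : ℝ => zA (-(d + t * c))) (B := fun t : ℝ => zB (-(d + t * c)))
    (((hcf.const_add d).neg.const_mul I).const_add (I * (π / 2))) hd2
  have V := (((v1.add v2).add (w1.add w2)).add (v3.add v4)).add (w3.add w4)
  have H := (((((((x1.const_mul 2).add x2).add x3).add y1).add y2).add y3).add y4)
  have T := ((V.sub H).add ((z1.sub z2).const_mul 2)).sub ((z3.sub z4).const_mul 2)
  refine T.congr_deriv ?_
  clear T V H v1 v2 v3 v4 w1 w2 w3 w4 x1 x2 x3 y1 y2 y3 y4 z1 z2 z3 z4
  have e1 := congrArg Complex.re h.r1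
  have e2 := congrArg Complex.re h.r2
  have e3 := congrArg Complex.re h.r3
  have e4 := congrArg Complex.re h.r4
  have e5 := congrArg Complex.re s5
  have e6 := congrArg Complex.re s6
  have m1 := congrArg Complex.im q1
  have m2 := congrArg Complex.im q2
  have m5 := congrArg Complex.im q5
  have m6 := congrArg Complex.im q6
  simp only [Complex.add_re, Complex.sub_re, re_two, re_I_mul, half_im, Complex.ofReal_re] at e1 e2 e3 e4 e5 e6
  simp only [Complex.add_im, Complex.sub_im, im_two, im_I_mul, Complex.neg_im] at m1 m2 m5 m6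
  have key := vol_alg (log (sin (af s))).re (log (sin (af s + s * c))).re
    (log (sin (af s - s * c))).re (log (cos (af s + b))).re (log (cos (af s - b))).re
    (log (cos (af s + d))).re (log (cos (af s - d))).re (log (cos b)).re (log (cos d)).re
    (log (cos (b + s * c))).re (log (cos (b - s * c))).re (log (cos (d + s * c))).re
    (log (cos (d - s * c))).re (ups (af s) b (s * c)).re (ups (af s) (-d) (-(s * c))).re
    (af s).im b.im d.im ((s : ℂ) * c).im (Real.log 2)
    psa.im psp.im psm.im pCp.im pCm.im pDp.im pDm.im pK.im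
    (-2 * psa.im + pCp.im + pCm.im - pK.im) pE.im (psp.im + psm.im - pCp.im - pCm.im - pE.im)
    pU.im pUt.im a'.re c.re (zB (b + s * c)).re (zB (-(b + s * c))).re pb1.im pb2.im
    (zB (d + s * c)).re (zB (-(d + s * c))).re pd1.im pd2.im
    (by linarith) (by linarith) (by linarith) (by linarith) (by linarith) (by linarith)
    (by linarith) (by linarith) (by linarith) (by linarith) (by linarith) (by linarith)
  obtain ⟨t1, t2, t3, t4, t5, t6, t7, t8⟩ := top_eq (af s) d (s * c)
  simp only [t1, t2, t3, t4, t5, t6, t7, t8]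
  simp only [aA1, aB1, aA2, aB2, bA1, bB1, bA2, bB2, xA, xB, yA, yB,
    zA, Complex.add_re, Complex.sub_re, Complex.add_im, Complex.sub_im, re_I_mul, im_I_mul,
    half_im, im_two, re_two, Complex.neg_im, Complex.neg_re, Complex.ofReal_re, Complex.ofReal_im]
  linear_combination key

end Pool.Agent.Y482.Chi
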